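import Pool.Agent.PD4.Rk3.Tau

/-!
# Project PD4, rank 3 block: Cartan formula, the mean value is multiplicative on closed forms
-/

open MeasureTheory
open scoped ContDiff TensorProduct

namespace Pool.Agent.PD4

lemma cart_iota_tmul {n : ℕ} (i : Fin n) (f : Sm n) (x : Ext n) :
    iota i (f ⊗ₜ[ℂ] x) = f ⊗ₜ[ℂ] CliffordAlgebra.contractLeft
      (Q := (0 : QuadraticForm ℂ (Fin n → ℂ))) (LinearMap.proj i : (Fin n → ℂ) →ₗ[ℂ] ℂ) x := rfl

/-- Cartan formula `d ι_i + ι_i d = ∂_i` -/
theorem cartan {n : ℕ} (i : Fin n) (w : Om (Sm n) n) :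
    (smCalc n).dd (iota i w) + iota i ((smCalc n).dd w) = liftD (pD i) w := by
  induction w using Om.ind with
  | zero => simp
  | add a b ha hb =>
    rw [map_add, map_add, map_add, map_add, map_add, ← ha, ← hb]
    abel
  | tmul f x =>
    rw [cart_iota_tmul, (smCalc n).dd_tmul, (smCalc n).dd_tmul, map_sum,
      ← Finset.sum_add_distrib, liftD_tmul]
    have h1 : ∀ j : Fin n, (smCalc n).D j f ⊗ₜ[ℂ] (dx j * CliffordAlgebra.contractLeft
        (Q := (0 : QuadraticForm ℂ (Fin n → ℂ))) (LinearMap.proj i : (Fin n → ℂ) →ₗ[ℂ] ℂ) x) +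
        iota i ((smCalc n).D j f ⊗ₜ[ℂ] (dx j * x)) =
        if j = i then pD i f ⊗ₜ[ℂ] x else 0 := by
      intro j
      rw [cart_iota_tmul]
      have h2 : CliffordAlgebra.contractLeft
          (Q := (0 : QuadraticForm ℂ (Fin n → ℂ))) (LinearMap.proj i : (Fin n → ℂ) →ₗ[ℂ] ℂ)
          ((dx j : Ext n) * x) = (if j = i then (1 : ℂ) else 0) • x -
          dx j * CliffordAlgebra.contractLeft
          (Q := (0 : QuadraticForm ℂ (Fin n → ℂ))) (LinearMap.proj i : (Fin n → ℂ) →ₗ[ℂ] ℂ) x := by
        have h3 := CliffordAlgebra.contractLeft_ι_mul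
          (Q := (0 : QuadraticForm ℂ (Fin n → ℂ))) (LinearMap.proj i : (Fin n → ℂ) →ₗ[ℂ] ℂ)
          (Pi.single j 1) x
        have h4 : (LinearMap.proj i : (Fin n → ℂ) →ₗ[ℂ] ℂ) (Pi.single j 1) =
            if j = i then (1 : ℂ) else 0 := by
          simp [Pi.single_apply, eq_comm]
        rw [h4] at h3
        exact h3
      rw [h2, TensorProduct.tmul_sub]
      have h5 : ∀ u v w : Om (Sm n) n, u + (v - u) = v := fun u v _ => by abel
      rw [h5 _ _ 0]
      by_cases hji : j = i
      · rw [if_pos hji, if_pos hji, one_smul, hji]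
        rfl
      · rw [if_neg hji, if_neg hji, zero_smul, TensorProduct.tmul_zero]
    rw [Finset.sum_congr rfl (fun j _ => h1 j), Finset.sum_ite_eq' Finset.univ i,
      if_pos (Finset.mem_univ i)]

lemma cart_tauO_tmul {n : ℕ} (c : Fin n → ℝ) (f : Sm n) (x : Ext n) :
    tauO c (f ⊗ₜ[ℂ] x) = tau c f ⊗ₜ[ℂ] x := rfl

lemma cart_TT_tmul {n : ℕ} (c : Fin n → ℝ) (f g : Sm n) (x y : Ext n) :
    (smCalc n).TT (tauO c (f ⊗ₜ[ℂ] x) * (g ⊗ₜ[ℂ] y)) = mean (tau c f * g) * topc n (x * y) := by
  rw [cart_tauO_tmul, Algebra.TensorProduct.tmul_mul_tmul, Calc.TT_tmul]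
  rfl

lemma cart_tau_zero {n : ℕ} (f : Sm n) : tau (0 : Fin n → ℝ) f = f := by
  apply Subtype.ext
  funext x
  rw [tau_apply, add_zero]

lemma cart_tauO_zero {n : ℕ} (w : Om (Sm n) n) : tauO (0 : Fin n → ℝ) w = w := by
  induction w using Om.ind with
  | zero => simp
  | add a b ha hb => rw [map_add, ha, hb]
  | tmul f x => rw [cart_tauO_tmul, cart_tau_zero]

lemma cart_dd_tauO {n : ℕ} (c : Fin n → ℝ) (w : Om (Sm n) n) :
    tauO c ((smCalc n).dd w) = (smCalc n).dd (tauO c w) :=
  pth_dd_map (smCalc n) (smCalc n) (tau c : Sm n →⋆ₐ[ℂ] Sm n).toAlgHom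
    (fun i a => (pD_tau c i a).symm) w

/-- derivative of the correlations -/
lemma cart_hasDerivAt {n : ℕ} (α β : Om (Sm n) n) (c : Fin n → ℝ) (t : ℝ) :
    HasDerivAt (fun t : ℝ => (smCalc n).TT (tauO (t • c) α * β))
      (∑ i, (c i : ℂ) * (smCalc n).TT (tauO (t • c) (liftD (pD i) α) * β)) t := by
  induction α using Om.ind with
  | zero =>
    simp only [map_zero, zero_mul, mul_zero, Finset.sum_const_zero]
    exact hasDerivAt_const t (0 : ℂ)
  | add a b ha hb =>
    have h := ha.add hb
    have e1 : (fun t : ℝ => (smCalc n).TT (tauO (t • c) (a + b) * β)) =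
        (fun t : ℝ => (smCalc n).TT (tauO (t • c) a * β)) +
          (fun t : ℝ => (smCalc n).TT (tauO (t • c) b * β)) := by
      funext t
      rw [Pi.add_apply, map_add, add_mul, map_add]
    have e2 : ∑ i, (c i : ℂ) * (smCalc n).TT (tauO (t • c) (liftD (pD i) (a + b)) * β) =
        ∑ i, (c i : ℂ) * (smCalc n).TT (tauO (t • c) (liftD (pD i) a) * β) +
          ∑ i, (c i : ℂ) * (smCalc n).TT (tauO (t • c) (liftD (pD i) b) * β) := by
      rw [← Finset.sum_add_distrib]
      refine Finset.sum_congr rfl fun i _ => ?_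
      rw [map_add, map_add, add_mul, map_add, mul_add]
    rw [e1, e2]
    exact h
  | tmul f x =>
    induction β using Om.ind with
    | zero =>
      simp only [map_zero, mul_zero, Finset.sum_const_zero]
      exact hasDerivAt_const t (0 : ℂ)
    | add a b ha hb =>
      have h := ha.add hb
      have e1 : (fun t : ℝ => (smCalc n).TT (tauO (t • c) (f ⊗ₜ[ℂ] x) * (a + b))) =
          (fun t : ℝ => (smCalc n).TT (tauO (t • c) (f ⊗ₜ[ℂ] x) * a)) +
            (fun t : ℝ => (smCalc n).TT (tauO (t • c) (f ⊗ₜ[ℂ] x) * b)) := by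
        funext t
        rw [Pi.add_apply, mul_add, map_add]
      have e2 : ∑ i, (c i : ℂ) * (smCalc n).TT (tauO (t • c) (liftD (pD i) (f ⊗ₜ[ℂ] x)) *
          (a + b)) =
          ∑ i, (c i : ℂ) * (smCalc n).TT (tauO (t • c) (liftD (pD i) (f ⊗ₜ[ℂ] x)) * a) +
            ∑ i, (c i : ℂ) * (smCalc n).TT (tauO (t • c) (liftD (pD i) (f ⊗ₜ[ℂ] x)) * b) := by
        rw [← Finset.sum_add_distrib]
        refine Finset.sum_congr rfl fun i _ => ?_
        rw [mul_add, map_add, mul_add]
      rw [e1, e2]
      exact h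
    | tmul g y =>
      have h := (hasDerivAt_mean (tauS c f * cS g) t).mul_const (topc n (x * y))
      have e1 : (fun t : ℝ => (smCalc n).TT (tauO (t • c) (f ⊗ₜ[ℂ] x) * (g ⊗ₜ[ℂ] y))) =
          fun t : ℝ => mean (evS t (tauS c f * cS g)) * topc n (x * y) := by
        funext t
        rw [cart_TT_tmul]
        rfl
      have e2 : ∑ i, (c i : ℂ) * (smCalc n).TT (tauO (t • c) (liftD (pD i) (f ⊗ₜ[ℂ] x)) *
          (g ⊗ₜ[ℂ] y)) = mean (evS t (pDs (tauS c f * cS g))) * topc n (x * y) := by
        rw [pDs_leib, pDs_cS, mul_zero, add_zero, pDs_tauS, map_mul, map_sum, Finset.sum_mul,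
          map_sum, Finset.sum_mul]
        refine Finset.sum_congr rfl fun i _ => ?_
        rw [liftD_tmul, cart_TT_tmul, map_smul, evS_tauS, evS_cS, smul_mul_assoc, map_smul,
          smul_eq_mul, mul_assoc]
      rw [e1, e2]
      exact h

/-- correlations of closed forms do not depend on the translation -/
theorem corr_const {n : ℕ} (α β : Om (Sm n) n) (hα : (smCalc n).dd α = 0)
    (hβ : (smCalc n).dd β = 0) (c : Fin n → ℝ) :
    (smCalc n).TT (tauO c α * β) = (smCalc n).TT (α * β) := by
  have hd : ∀ t : ℝ, HasDerivAt (fun t : ℝ => (smCalc n).TT (tauO (t • c) α * β)) 0 t := by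
    intro t
    have h := cart_hasDerivAt α β c t
    have e : ∑ i, (c i : ℂ) * (smCalc n).TT (tauO (t • c) (liftD (pD i) α) * β) = 0 := by
      refine Finset.sum_eq_zero fun i _ => ?_
      have h1 := cartan i α
      rw [hα, map_zero, add_zero] at h1
      rw [← h1, cart_dd_tauO]
      have h2 := (smCalc n).dd_mul (tauO (t • c) (iota i α)) β
      rw [hβ, mul_zero, add_zero] at h2
      rw [← h2, Calc.TT_dd, mul_zero]
    rw [e] at h
    exact h
  have h1 := is_const_of_deriv_eq_zero (fun t => (hd t).differentiableAt)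
    (fun t => (hd t).deriv) 1 0
  simp only [one_smul, zero_smul] at h1
  rw [cart_tauO_zero] at h1
  exact h1

lemma cart_continuous {n : ℕ} (α β : Om (Sm n) n) :
    Continuous fun c : Fin n → ℝ => (smCalc n).TT (tauO c α * β) := by
  induction α using Om.ind with
  | zero =>
    simp only [map_zero, zero_mul]
    exact continuous_const
  | add a b ha hb =>
    simp only [map_add, add_mul]
    exact ha.add hb
  | tmul f x =>
    induction β using Om.ind with
    | zero =>
      simp only [mul_zero, map_zero]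
      exact continuous_const
    | add a b ha hb =>
      simp only [map_add, mul_add]
      exact ha.add hb
    | tmul g y =>
      simp only [cart_TT_tmul]
      exact (continuous_corr f g).mul continuous_const

lemma cart_integrable {n : ℕ} (α β : Om (Sm n) n) :
    IntegrableOn (fun c : Fin n → ℝ => (smCalc n).TT (tauO c α * β))
      (Set.Icc (0 : Fin n → ℝ) 1) volume :=
  (cart_continuous α β).continuousOn.integrableOn_compact isCompact_Icc

/-- the average of the correlations of forms -/
theorem avg_corrO {n : ℕ} (α β : Om (Sm n) n) :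
    ∫ c in Set.Icc (0 : Fin n → ℝ) 1, (smCalc n).TT (tauO c α * β) =
      topc n (meanO α * meanO β) := by
  induction α using Om.ind with
  | zero => simp
  | add a b ha hb =>
    rw [map_add, add_mul, map_add, ← ha, ← hb, ← integral_add (cart_integrable a β)
      (cart_integrable b β)]
    refine setIntegral_congr_fun measurableSet_Icc fun c _ => ?_
    show (smCalc n).TT (tauO c (a + b) * β) = _
    rw [map_add, add_mul, map_add]
  | tmul f x =>
    induction β using Om.ind with
    | zero => simp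
    | add a b ha hb =>
      rw [map_add, mul_add, map_add, ← ha, ← hb, ← integral_add (cart_integrable _ a)
        (cart_integrable _ b)]
      refine setIntegral_congr_fun measurableSet_Icc fun c _ => ?_
      show (smCalc n).TT (tauO c (f ⊗ₜ[ℂ] x) * (a + b)) = _
      rw [mul_add, map_add]
    | tmul g y =>
      simp only [cart_TT_tmul]
      rw [integral_mul_const, avg_corr, meanO_tmul, meanO_tmul, smul_mul_smul_comm, map_smul,
        smul_eq_mul]

/-- **averaging lemma** -/
theorem mean_mul {n : ℕ} (α β : Om (Sm n) n) (hα : (smCalc n).dd α = 0)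
    (hβ : (smCalc n).dd β = 0) :
    (smCalc n).TT (α * β) = topc n (meanO α * meanO β) := by
  rw [← avg_corrO]
  simp only [corr_const α β hα hβ]
  rw [setIntegral_const]
  have h1 : (volume : Measure (Fin n → ℝ)).real (Set.Icc 0 1) = 1 := by
    rw [Measure.real, Real.volume_Icc_pi_toReal (by intro i; exact zero_le_one)]
    simp
  rw [h1, one_smul]

end Pool.Agent.PD4
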