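import Pool.Agent.PD4.Rk3.Trace

/-!
# Project PD4, rank 3 block: Newton identity of a rank 3 idempotent
-/

open MeasureTheory
open scoped ContDiff TensorProduct

namespace Pool.Agent.PD4

/-- Newton identity: `24 e_4 = 0` for a `3 × 3` matrix over a commutative ring -/
theorem newton3 {A : Type*} [CommRing A] (M : Matrix (Fin 3) (Fin 3) A) :
    M.trace ^ 4 - 6 * M.trace ^ 2 * (M ^ 2).trace + 3 * (M ^ 2).trace ^ 2 +
      8 * M.trace * (M ^ 3).trace - 6 * (M ^ 4).trace = 0 := by
  have e4 : M ^ 4 = M ^ 2 * M ^ 2 := by rw [← pow_add]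
  have e3 : M ^ 3 = M ^ 2 * M := by rw [← pow_succ]
  rw [e4, e3, pow_two M]
  simp only [Matrix.trace_fin_three, Matrix.mul_apply, Fin.sum_univ_three]
  ring

/-- a complex idempotent of trace 3 factors through `ℂ³` -/
theorem idem_factor {ι : Type*} [Fintype ι] [DecidableEq ι] (E : Matrix ι ι ℂ) (hE : E * E = E)
    (ht : E.trace = 3) :
    ∃ (U : Matrix ι (Fin 3) ℂ) (V : Matrix (Fin 3) ι ℂ), V * U = 1 ∧ U * V = E := by
  have hid : IsIdempotentElem (Matrix.toLin' E) := by
    change Matrix.toLin' E * Matrix.toLin' E = Matrix.toLin' E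
    rw [Module.End.mul_eq_comp, ← Matrix.toLin'_mul, hE]
  have hproj := LinearMap.IsIdempotentElem.isProj_range _ hid
  have htr := hproj.trace
  rw [Matrix.trace_toLin'_eq, ht] at htr
  have hfr : Module.finrank ℂ (LinearMap.range (Matrix.toLin' E)) = 3 := by
    have h3 : ((3 : ℕ) : ℂ) = (Module.finrank ℂ (LinearMap.range (Matrix.toLin' E)) : ℂ) := by
      rw [← htr]
      norm_num
    exact_mod_cast h3.symm
  let b := Module.finBasisOfFinrankEq ℂ (LinearMap.range (Matrix.toLin' E)) hfr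
  have hEb : ∀ j, Matrix.toLin' E (b j).1 = (b j).1 := fun j => hproj.map_id _ (b j).2
  refine ⟨Matrix.of fun i j => (b j).1 i,
    Matrix.of fun j i => b.repr ⟨Matrix.toLin' E (Pi.single i 1), LinearMap.mem_range_self _ _⟩ j,
    ?_, ?_⟩
  · ext j k
    rw [Matrix.mul_apply]
    simp only [Matrix.of_apply]
    have h1 : (⟨Matrix.toLin' E (b k).1, LinearMap.mem_range_self _ _⟩ :
        LinearMap.range (Matrix.toLin' E)) =
        ∑ i, (b k).1 i • ⟨Matrix.toLin' E (Pi.single i 1), LinearMap.mem_range_self _ _⟩ := by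
      apply Subtype.ext
      rw [Submodule.coe_sum]
      simp only [Submodule.coe_smul]
      conv_lhs => rw [← Finset.univ_sum_single (b k).1]
      rw [map_sum]
      refine Finset.sum_congr rfl fun i _ => ?_
      rw [← map_smul, ← Pi.single_smul, smul_eq_mul, mul_one]
    have h2 : (⟨Matrix.toLin' E (b k).1, LinearMap.mem_range_self _ _⟩ :
        LinearMap.range (Matrix.toLin' E)) = b k := Subtype.ext (hEb k)
    have h3 := congrArg (fun v => b.repr v j) (h1.symm.trans h2)
    simp only [map_sum, map_smul, Finsupp.coe_finsetSum, Finset.sum_apply, Finsupp.smul_apply,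
      smul_eq_mul, Module.Basis.repr_self] at h3
    rw [Matrix.one_apply]
    rw [Finsupp.single_apply] at h3
    rw [← Finset.sum_congr rfl (fun i _ => mul_comm _ _)]
    rw [h3]
    by_cases hjk : j = k
    · rw [if_pos hjk, if_pos hjk.symm]
    · rw [if_neg hjk, if_neg (fun h => hjk h.symm)]
  · ext i k
    rw [Matrix.mul_apply]
    simp only [Matrix.of_apply]
    have h1 := congrArg (fun v : LinearMap.range (Matrix.toLin' E) => v.1 i)
      (b.sum_repr ⟨Matrix.toLin' E (Pi.single k 1), LinearMap.mem_range_self _ _⟩)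
    simp only [Submodule.coe_sum, Submodule.coe_smul, Finset.sum_apply, Pi.smul_apply,
      smul_eq_mul] at h1
    rw [Finset.sum_congr rfl (fun j _ => mul_comm _ _), h1]
    rw [Matrix.toLin'_apply, Matrix.mulVec_single_one]
    rfl

theorem nw_cont {n : ℕ} (w : Om (Sm n) n) : Continuous fun x => topc n (evO x w) := by
  induction w using Om.ind with
  | zero => simp only [map_zero]; exact continuous_const
  | add a b ha hb =>
    simp only [map_add]
    exact ha.add hb
  | tmul a y =>
    simp only [evO_tmul, map_smul, smul_eq_mul]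
    exact (Sm.cont_coe a).mul continuous_const

theorem nw_int {n : ℕ} (w : Om (Sm n) n) :
    IntegrableOn (fun x => topc n (evO x w)) (Set.Icc (0 : Fin n → ℝ) 1) volume :=
  (nw_cont w).continuousOn.integrableOn_compact isCompact_Icc

/-- the trace integral is the integral of the top coefficient -/
theorem TT_integral {n : ℕ} (w : Om (Sm n) n) :
    (smCalc n).TT w = ∫ x in Set.Icc (0 : Fin n → ℝ) 1, topc n (evO x w) := by
  induction w using Om.ind with
  | zero => simp
  | add a b ha hb =>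
    rw [map_add, ha, hb]
    simp only [map_add]
    exact (integral_add (nw_int a) (nw_int b)).symm
  | tmul a y =>
    rw [Calc.TT_tmul]
    simp only [evO_tmul, map_smul, smul_eq_mul]
    rw [integral_mul_const]
    rfl

variable {ι : Type*} [Fintype ι] [DecidableEq ι] {n : ℕ}

/-- the entries of matrix forms -/
noncomputable def nwg (ι : Type*) [Fintype ι] [DecidableEq ι] (n : ℕ) :
    Ext n →ₐ[ℂ] Matrix ι ι (Ext n) :=
  { Matrix.scalar ι with
    commutes' := fun c => by
      change Matrix.scalar ι (algebraMap ℂ (Ext n) c) = _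
      rw [Matrix.scalar_apply, Matrix.algebraMap_eq_diagonal]
      rfl }

theorem nwg_apply (y : Ext n) : nwg ι n y = Matrix.diagonal fun _ => y := rfl

/-- evaluation of a matrix form at a point -/
noncomputable def nwE (x : Fin n → ℝ) : Om (Matrix ι ι (Sm n)) n →ₐ[ℂ] Matrix ι ι (Ext n) :=
  Algebra.TensorProduct.lift
    (((Algebra.ofId ℂ (Ext n)).comp (Sm.ev x : Sm n →⋆ₐ[ℂ] ℂ).toAlgHom).mapMatrix)
    (nwg ι n) (fun f y => by
      rw [nwg_apply]
      ext i j
      rw [Matrix.mul_diagonal, Matrix.diagonal_mul]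
      change algebraMap ℂ (Ext n) ((f i j).1 x) * y = y * algebraMap ℂ (Ext n) ((f i j).1 x)
      exact Algebra.commutes _ _)

theorem nwE_tmul (x : Fin n → ℝ) (M : Matrix ι ι (Sm n)) (y : Ext n) (i j : ι) :
    nwE x (M ⊗ₜ[ℂ] y) i j = (M i j).1 x • y := by
  rw [nwE, Algebra.TensorProduct.lift_tmul, nwg_apply, Matrix.mul_diagonal, Algebra.smul_def]
  rfl

theorem nw_trace (x : Fin n → ℝ) (w : Om (Matrix ι ι (Sm n)) n) :
    evO x (Tr w) = (nwE x w).trace := by
  induction w using Om.ind with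
  | zero => simp
  | add a b ha hb => rw [map_add, map_add, map_add, Matrix.trace_add, ha, hb]
  | tmul a y =>
    rw [Tr_tmul, evO_tmul]
    unfold Matrix.trace
    simp only [Matrix.diag_apply, nwE_tmul]
    rw [← Finset.sum_smul]
    congr 1
    exact map_sum (Sm.ev x : Sm n →⋆ₐ[ℂ] ℂ) _ _

/-- entries of a matrix form of degree one are odd -/
theorem nw_odd (x : Fin n → ℝ) (P : Matrix ι ι (Sm n)) (i j : ι) :
    gr n (nwE x (dO P) i j) = - nwE x (dO P) i j := by
  unfold dO eO
  rw [Calc.dd_tmul, map_sum, Matrix.sum_apply, map_sum, ← Finset.sum_neg_distrib]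
  refine Finset.sum_congr rfl fun k _ => ?_
  rw [mul_one, nwE_tmul, map_smul, gr_dx, smul_neg]

theorem nw_central (x : Fin n → ℝ) (P : Matrix ι ι (Sm n)) (i j : ι) :
    nwE x (dO P ^ 2) i j ∈ Subalgebra.center ℂ (Ext n) := by
  rw [pow_two, map_mul, Matrix.mul_apply]
  apply Subalgebra.sum_mem
  intro k _
  rw [Subalgebra.mem_center_iff]
  intro b
  symm
  apply even_mul
  rw [map_mul, nw_odd, nw_odd, neg_mul_neg]

theorem nw_comm (P : Matrix ι ι (Sm n)) (hP : P * P = P) :
    eO P * dO P ^ 2 = dO P ^ 2 * eO P ∧ eO P * eO P = eO P := by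
  have h1 : eO P * eO P = eO P := by
    unfold eO
    rw [Algebra.TensorProduct.tmul_mul_tmul, hP, mul_one]
  have h2 : dO P = dO P * eO P + eO P * dO P := by
    have h3 := (matCalc ι n).dd_mul (eO P) (eO P)
    rw [h1] at h3
    have h4 : grO (eO P) = eO P := by
      unfold eO
      rw [grO_tmul, map_one]
    rw [h4] at h3
    exact h3
  have h5 : eO P * dO P * eO P = 0 := by
    have h6 : eO P * dO P = eO P * (dO P * eO P + eO P * dO P) := by rw [← h2]
    rw [mul_add, ← mul_assoc, ← mul_assoc, h1] at h6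
    exact left_eq_add.1 (by rw [add_comm]; exact h6)
  refine ⟨?_, h1⟩
  have h7 : eO P * dO P ^ 2 = eO P * dO P * dO P := by rw [pow_two, mul_assoc]
  have h8 : dO P ^ 2 * eO P = dO P * (dO P * eO P) := by rw [pow_two, mul_assoc]
  have h9 : eO P * dO P * dO P = eO P * dO P * (dO P * eO P + eO P * dO P) := by rw [← h2]
  have h10 : dO P * (dO P * eO P) = (dO P * eO P + eO P * dO P) * (dO P * eO P) := by
    rw [← h2]
  have h11 : eO P * dO P * (eO P * dO P) = 0 := by
    rw [← mul_assoc, h5, zero_mul]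
  have h12 : dO P * eO P * (dO P * eO P) = 0 := by
    rw [mul_assoc, ← mul_assoc (eO P), h5, mul_zero]
  rw [h7, h8, h9, h10, mul_add, add_mul, h11, h12, add_zero, zero_add, mul_assoc]

/-- **pointwise Newton identity** of a rank 3 idempotent -/
theorem newton_pointwise (P : Matrix ι ι (Sm n)) (hP : P * P = P) (x : Fin n → ℝ)
    (ht : (mev x P).trace = 3) :
    evO x (pk P 1 ^ 4 - 6 * pk P 1 ^ 2 * pk P 2 + 3 * pk P 2 ^ 2 + 8 * pk P 1 * pk P 3 -
      6 * pk P 4) = 0 := by
  obtain ⟨hc, he⟩ := nw_comm P hP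
  have hmev : mev x P * mev x P = mev x P := by
    have h1 : mev x (P * P) = mev x P * mev x P := by
      ext i j
      change (Sm.ev x : Sm n →⋆ₐ[ℂ] ℂ) ((P * P) i j) = _
      rw [Matrix.mul_apply, Matrix.mul_apply, map_sum]
      refine Finset.sum_congr rfl fun k _ => ?_
      rw [map_mul]
      rfl
    rw [← h1, hP]
  obtain ⟨U, V, hVU, hUV⟩ := idem_factor (mev x P) hmev ht
  -- matrices over the center
  let Z := Subalgebra.center ℂ (Ext n)
  let φ : ℂ →+* Z := algebraMap ℂ Z
  let D : Matrix ι ι Z := Matrix.of fun i j => ⟨nwE x (dO P ^ 2) i j, nw_central x P i j⟩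
  have hD : D.map (Z.subtype) = nwE x (dO P ^ 2) := rfl
  have hE : ((mev x P).map φ).map (Z.subtype) = nwE x (eO P) := by
    ext i j
    rw [eO, nwE_tmul, Algebra.smul_def, mul_one]
    rfl
  have hinj : Function.Injective (fun M : Matrix ι ι Z => M.map (Z.subtype)) := by
    intro M M' h
    ext i j
    have := congrFun (congrFun h i) j
    exact this
  have hmul : ∀ M M' : Matrix ι ι Z,
      (M * M').map (Z.subtype) = M.map (Z.subtype) * M'.map (Z.subtype) := by
    intro M M'
    exact Matrix.map_mul (f := (Z.subtype : Z →+* Ext n))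
  have hcD : (mev x P).map φ * D = D * (mev x P).map φ := by
    apply hinj
    simp only [hmul, hE, hD]
    rw [← map_mul, ← map_mul, hc]
  have heD : (mev x P).map φ * (mev x P).map φ = (mev x P).map φ := by
    rw [← Matrix.map_mul, hmev]
  have hUVZ : U.map φ * V.map φ = (mev x P).map φ := by
    rw [← Matrix.map_mul, hUV]
  have hVUZ : V.map φ * U.map φ = 1 := by
    rw [← Matrix.map_mul, hVU]
    exact Matrix.map_one _ (map_zero φ) (map_one φ)
  obtain ⟨E, hEdef⟩ : ∃ E, E = (mev x P).map φ := ⟨_, rfl⟩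
  obtain ⟨U', hU'⟩ : ∃ U', U' = U.map φ := ⟨_, rfl⟩
  obtain ⟨V', hV'⟩ : ∃ V', V' = V.map φ := ⟨_, rfl⟩
  rw [← hEdef] at hcD heD hUVZ hE
  rw [← hU', ← hV'] at hUVZ hVUZ
  -- powers
  have hpow : ∀ k, (V' * D * U') ^ (k + 1) = V' * D ^ (k + 1) * U' := by
    intro k
    have hcDk : ∀ m, E * D ^ m = D ^ m * E := fun m =>
      (Commute.pow_right (show Commute E D from hcD) m)
    have hEU : E * U' = U' := by
      rw [← hUVZ, Matrix.mul_assoc, hVUZ, Matrix.mul_one]
    induction k with
    | zero => rw [zero_add, pow_one, pow_one]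
    | succ k ih =>
      rw [pow_succ, ih]
      calc V' * D ^ (k + 1) * U' * (V' * D * U') = V' * (D ^ (k + 1) * ((U' * V') * (D * U'))) := by
            simp only [Matrix.mul_assoc]
        _ = V' * (D ^ (k + 1) * (E * D * U')) := by
            rw [hUVZ, Matrix.mul_assoc E]
        _ = V' * (D ^ (k + 1) * (D * (E * U'))) := by
            rw [hcD, Matrix.mul_assoc D]
        _ = V' * D ^ (k + 1 + 1) * U' := by
            rw [hEU, pow_succ D (k + 1)]
            simp only [Matrix.mul_assoc]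
  have htrace : ∀ k, (Z.subtype) (((V' * D * U') ^ (k + 1)).trace) = evO x (pk P (k + 1)) := by
    intro k
    rw [hpow, Matrix.trace_mul_comm, ← Matrix.mul_assoc, hUVZ]
    unfold pk
    rw [nw_trace, map_mul, pow_mul, map_pow, ← hE, ← hD]
    have h1 : (E.map (Z.subtype) * D.map (Z.subtype) ^ (k + 1)) =
        (E * D ^ (k + 1)).map (Z.subtype) := by
      rw [hmul]
      congr 1
      exact (map_pow ((Z.subtype : Z →+* Ext n).mapMatrix) D (k + 1)).symm
    rw [h1]
    exact (AddMonoidHom.map_trace (Z.subtype : Z →+* Ext n).toAddMonoidHom _)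
  have hN := newton3 (V' * D * U')
  have h1 := htrace 0
  have h2 : (Z.subtype) (((V' * D * U') ^ 2).trace) = evO x (pk P 2) := htrace 1
  have h3 : (Z.subtype) (((V' * D * U') ^ 3).trace) = evO x (pk P 3) := htrace 2
  have h4 : (Z.subtype) (((V' * D * U') ^ 4).trace) = evO x (pk P 4) := htrace 3
  rw [zero_add, pow_one] at h1
  have hN' := congrArg (Z.subtype) hN
  simp only [map_sub, map_add, map_mul, map_pow, map_ofNat, map_zero] at hN' ⊢
  rw [h1, h2, h3, h4] at hN'
  exact hN'

/-- the integrated Newton identity -/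
theorem newton_TT (P : Matrix ι ι (Sm n)) (hP : P * P = P) (ht : ∀ x, (mev x P).trace = 3) :
    6 * (smCalc n).TT (pk P 4) = 3 * (smCalc n).TT (pk P 2 * pk P 2) +
      (smCalc n).TT (pk P 1 * (pk P 1 ^ 3 - 6 * pk P 1 * pk P 2 + 8 * pk P 3)) := by
  have h1 : (smCalc n).TT (pk P 1 ^ 4 - 6 * pk P 1 ^ 2 * pk P 2 + 3 * pk P 2 ^ 2 +
      8 * pk P 1 * pk P 3 - 6 * pk P 4) = 0 := by
    rw [TT_integral]
    simp only [newton_pointwise P hP _ (ht _), map_zero]
    exact integral_zero _ _
  have h2 : pk P 1 ^ 4 - 6 * pk P 1 ^ 2 * pk P 2 + 3 * pk P 2 ^ 2 +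
      8 * pk P 1 * pk P 3 - 6 * pk P 4 = (3 : ℂ) • (pk P 2 * pk P 2) +
      pk P 1 * (pk P 1 ^ 3 - 6 * pk P 1 * pk P 2 + 8 * pk P 3) - (6 : ℂ) • pk P 4 := by
    have e3 : (3 : ℂ) • (pk P 2 * pk P 2) = 3 * (pk P 2 * pk P 2) := by
      rw [Algebra.smul_def, map_ofNat]
    have e6 : (6 : ℂ) • pk P 4 = 6 * pk P 4 := by
      rw [Algebra.smul_def, map_ofNat]
    rw [e3, e6]
    noncomm_ring
  rw [h2, map_sub, map_add, map_smul, map_smul, smul_eq_mul, smul_eq_mul] at h1
  linear_combination -h1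

end Pool.Agent.PD4
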