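import Pool.Agent.PD4.Rk3.Trace

/-!
# Project PD4, rank 3 block: the mean value of `p_1` of a Real hermitian idempotent vanishes
-/

open MeasureTheory
open scoped ContDiff TensorProduct

namespace Pool.Agent.PD4

variable {ι : Type*} [Fintype ι] [DecidableEq ι] {n : ℕ}

omit [DecidableEq ι] in
lemma rl_map_mul (A B : Matrix ι ι (Sm n)) :
    (A * B).map (Sm.inv : Sm n →⋆ₐ[ℂ] Sm n) =
      A.map (Sm.inv : Sm n →⋆ₐ[ℂ] Sm n) * B.map (Sm.inv : Sm n →⋆ₐ[ℂ] Sm n) := by
  ext1 k l
  simp only [Matrix.map_apply, Matrix.mul_apply, map_sum, map_mul]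

omit [DecidableEq ι] in
lemma rl_trace (A : Matrix ι ι (Sm n)) :
    (Sm.inv : Sm n →⋆ₐ[ℂ] Sm n) A.trace = (A.map (Sm.inv : Sm n →⋆ₐ[ℂ] Sm n)).trace := by
  simp only [Matrix.trace, Matrix.diag_apply, Matrix.map_apply, map_sum]

omit [Fintype ι] [DecidableEq ι] in
lemma rl_entry (P : Matrix ι ι (Sm n)) (hh : P.conjTranspose = P) (hr : MReal P) (k l : ι) :
    Sm.inv (P k l) = P l k := by
  have h1 : Sm.inv (P k l) = star (P k l) := hr k l
  have h2 : star (P k l) = P l k := congrFun (congrFun hh l) k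
  rw [h1, h2]

omit [Fintype ι] [DecidableEq ι] in
lemma rl_P (P : Matrix ι ι (Sm n)) (hh : P.conjTranspose = P) (hr : MReal P) :
    P.map (Sm.inv : Sm n →⋆ₐ[ℂ] Sm n) = P.transpose := by
  ext1 k l
  exact rl_entry P hh hr k l

lemma rl_D (P : Matrix ι ι (Sm n)) (hh : P.conjTranspose = P) (hr : MReal P) (i : Fin n) :
    ((matCalc ι n).D i P).map (Sm.inv : Sm n →⋆ₐ[ℂ] Sm n) =
      - ((matCalc ι n).D i P).transpose := by
  ext1 k l
  change Sm.inv (pD i (P k l)) = - pD i (P l k)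
  have h := pD_inv i (P k l)
  rw [rl_entry P hh hr k l] at h
  rw [h, neg_neg]

/-- the second moments of a Real hermitian matrix function are symmetric -/
theorem mean_symm (P : Matrix ι ι (Sm n)) (hh : P.conjTranspose = P) (hr : MReal P)
    (i j : Fin n) :
    mean (P * ((matCalc ι n).D i P * (matCalc ι n).D j P)).trace =
      mean (P * ((matCalc ι n).D j P * (matCalc ι n).D i P)).trace := by
  rw [← mean_inv, rl_trace, rl_map_mul, rl_map_mul, rl_P P hh hr, rl_D P hh hr, rl_D P hh hr,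
    Matrix.neg_mul, Matrix.mul_neg, Matrix.mul_neg, Matrix.mul_neg, neg_neg,
    ← Matrix.transpose_mul, ← Matrix.transpose_mul, Matrix.trace_transpose,
    Matrix.trace_mul_comm]

/-- the mean value of `p_1` vanishes -/
theorem meanO_pk_one (P : Matrix ι ι (Sm n)) (hh : P.conjTranspose = P) (hr : MReal P) :
    meanO (pk P 1) = 0 := by
  have h1 : meanO (pk P 1) = ∑ f : Fin 2 → Fin n,
      mean (P * ((matCalc ι n).D (f 0) P * (matCalc ι n).D (f 1) P)).trace •
        ((dx (f 0) : Ext n) * dx (f 1)) := by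
    rw [pk_eq, map_sum]
    refine Finset.sum_congr rfl fun f _ => ?_
    rw [meanO_tmul]
    change mean (P * (List.ofFn fun j : Fin 2 => (matCalc ι n).D (f j) P).prod).trace •
      (List.ofFn fun j : Fin 2 => (dx (f j) : Ext n)).prod = _
    simp only [List.ofFn_succ, List.ofFn_zero, List.prod_cons, List.prod_nil, mul_one]
    rfl
  have h2 : (∑ f : Fin 2 → Fin n,
      mean (P * ((matCalc ι n).D (f 0) P * (matCalc ι n).D (f 1) P)).trace •
        ((dx (f 0) : Ext n) * dx (f 1))) = - ∑ f : Fin 2 → Fin n,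
      mean (P * ((matCalc ι n).D (f 0) P * (matCalc ι n).D (f 1) P)).trace •
        ((dx (f 0) : Ext n) * dx (f 1)) := by
    conv_lhs => rw [← (Equiv.arrowCongr (Equiv.swap (0 : Fin 2) 1) (Equiv.refl (Fin n))).sum_comp]
    rw [← Finset.sum_neg_distrib]
    refine Finset.sum_congr rfl fun f _ => ?_
    have e0 : (Equiv.arrowCongr (Equiv.swap (0 : Fin 2) 1) (Equiv.refl (Fin n))) f 0 = f 1 := by
      simp [Equiv.arrowCongr]
    have e1 : (Equiv.arrowCongr (Equiv.swap (0 : Fin 2) 1) (Equiv.refl (Fin n))) f 1 = f 0 := by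
      simp [Equiv.arrowCongr]
    rw [e0, e1, mean_symm P hh hr (f 1) (f 0), dx_mul_swap (f 1) (f 0), smul_neg]
  rw [h1]
  set S := ∑ f : Fin 2 → Fin n,
      mean (P * ((matCalc ι n).D (f 0) P * (matCalc ι n).D (f 1) P)).trace •
        ((dx (f 0) : Ext n) * dx (f 1)) with hS
  have h3 : (2 : ℂ) • S = 0 := by
    rw [two_smul]
    nth_rewrite 1 [h2]
    exact neg_add_cancel _
  have h4 := congrArg (fun w => ((2 : ℂ)⁻¹) • w) h3
  simpa [smul_smul] using h4

end Pool.Agent.PD4
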