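import Mathlib

/-!
# Project PD4, rank 3 block: sums over `S_8` of alternating functions of `4 + 4` arguments
-/

namespace Pool.Agent.PD4

/-- the first four indices -/
def lft (i : Fin 4) : Fin 8 := ⟨i.val, by omega⟩

/-- the last four indices -/
def rgt (i : Fin 4) : Fin 8 := ⟨i.val + 4, by omega⟩

/-- the block decomposition of the indices -/
def cb_e : Fin 4 ⊕ Fin 4 ≃ Fin 8 := finSumFinEquiv

theorem cb_e_inl (i : Fin 4) : cb_e (Sum.inl i) = lft i := by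
  rfl

theorem cb_e_inr (i : Fin 4) : cb_e (Sum.inr i) = rgt i := by
  apply Fin.ext
  show (finSumFinEquiv (Sum.inr i) : Fin (4 + 4)).val = i.val + 4
  rw [finSumFinEquiv_apply_right, Fin.val_natAdd, add_comm]

theorem cb_symm_lft (i : Fin 4) : cb_e.symm (lft i) = Sum.inl i := by
  rw [← cb_e_inl, Equiv.symm_apply_apply]

theorem cb_symm_rgt (i : Fin 4) : cb_e.symm (rgt i) = Sum.inr i := by
  rw [← cb_e_inr, Equiv.symm_apply_apply]

/-- the block permutations -/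
def cb_hom : Equiv.Perm (Fin 4) × Equiv.Perm (Fin 4) →* Equiv.Perm (Fin 8) :=
  (cb_e.permCongrHom.toMonoidHom).comp (Equiv.Perm.sumCongrHom (Fin 4) (Fin 4))

theorem cb_hom_inj : Function.Injective cb_hom := by
  intro p q h
  apply Equiv.Perm.sumCongrHom_injective
  exact cb_e.permCongrHom.injective h

theorem cb_hom_apply (p : Equiv.Perm (Fin 4) × Equiv.Perm (Fin 4)) (x : Fin 8) :
    cb_hom p x = cb_e (Equiv.Perm.sumCongr p.1 p.2 (cb_e.symm x)) := rfl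

theorem cb_hom_lft (p : Equiv.Perm (Fin 4) × Equiv.Perm (Fin 4)) (i : Fin 4) :
    cb_hom p (lft i) = lft (p.1 i) := by
  rw [cb_hom_apply, cb_symm_lft, Equiv.Perm.sumCongr_apply, Sum.map_inl, cb_e_inl]

theorem cb_hom_rgt (p : Equiv.Perm (Fin 4) × Equiv.Perm (Fin 4)) (i : Fin 4) :
    cb_hom p (rgt i) = rgt (p.2 i) := by
  rw [cb_hom_apply, cb_symm_rgt, Equiv.Perm.sumCongr_apply, Sum.map_inr, cb_e_inr]

theorem cb_sign (p : Equiv.Perm (Fin 4) × Equiv.Perm (Fin 4)) :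
    Equiv.Perm.sign (cb_hom p) = Equiv.Perm.sign p.1 * Equiv.Perm.sign p.2 := by
  have h : cb_hom p = cb_e.permCongr (Equiv.Perm.sumCongr p.1 p.2) := rfl
  rw [h, Equiv.Perm.sign_permCongr, Equiv.Perm.sign_sumCongr]

theorem cb_mul_lft (σ : Equiv.Perm (Fin 8)) (p : Equiv.Perm (Fin 4) × Equiv.Perm (Fin 4)) :
    (⇑(σ * cb_hom p)) ∘ lft = (⇑σ ∘ lft) ∘ ⇑p.1 := by
  funext i
  simp only [Function.comp_apply, Equiv.Perm.mul_apply, cb_hom_lft]

theorem cb_mul_rgt (σ : Equiv.Perm (Fin 8)) (p : Equiv.Perm (Fin 4) × Equiv.Perm (Fin 4)) :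
    (⇑(σ * cb_hom p)) ∘ rgt = (⇑σ ∘ rgt) ∘ ⇑p.2 := by
  funext i
  simp only [Function.comp_apply, Equiv.Perm.mul_apply, cb_hom_rgt]

/-- antisymmetrisation in each half -/
theorem sum_antisymm (a : (Fin 4 → Fin 8) → ℂ) :
    576 * ∑ σ : Equiv.Perm (Fin 8), ((Equiv.Perm.sign σ : ℤ) : ℂ) * a (σ ∘ lft) * a (σ ∘ rgt) =
      ∑ σ : Equiv.Perm (Fin 8), ((Equiv.Perm.sign σ : ℤ) : ℂ) *
        (∑ π : Equiv.Perm (Fin 4), ((Equiv.Perm.sign π : ℤ) : ℂ) * a ((σ ∘ lft) ∘ π)) *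
        (∑ π : Equiv.Perm (Fin 4), ((Equiv.Perm.sign π : ℤ) : ℂ) * a ((σ ∘ rgt) ∘ π)) := by
  have h1 : ∀ p : Equiv.Perm (Fin 4) × Equiv.Perm (Fin 4),
      ∑ σ : Equiv.Perm (Fin 8), ((Equiv.Perm.sign σ : ℤ) : ℂ) *
        (((Equiv.Perm.sign p.1 : ℤ) : ℂ) * a ((σ ∘ lft) ∘ p.1)) *
        (((Equiv.Perm.sign p.2 : ℤ) : ℂ) * a ((σ ∘ rgt) ∘ p.2)) =
      ∑ σ : Equiv.Perm (Fin 8), ((Equiv.Perm.sign σ : ℤ) : ℂ) * a (σ ∘ lft) * a (σ ∘ rgt) := by
    intro p
    rw [← Equiv.sum_comp (Equiv.mulRight (cb_hom p))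
      (fun σ : Equiv.Perm (Fin 8) => ((Equiv.Perm.sign σ : ℤ) : ℂ) * a (σ ∘ lft) * a (σ ∘ rgt))]
    apply Finset.sum_congr rfl
    intro σ _
    rw [Equiv.coe_mulRight, cb_mul_lft, cb_mul_rgt, Equiv.Perm.sign_mul, cb_sign]
    push_cast
    ring
  have h2 : ∑ σ : Equiv.Perm (Fin 8), ((Equiv.Perm.sign σ : ℤ) : ℂ) *
        (∑ π : Equiv.Perm (Fin 4), ((Equiv.Perm.sign π : ℤ) : ℂ) * a ((σ ∘ lft) ∘ π)) *
        (∑ π : Equiv.Perm (Fin 4), ((Equiv.Perm.sign π : ℤ) : ℂ) * a ((σ ∘ rgt) ∘ π)) =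
      ∑ p : Equiv.Perm (Fin 4) × Equiv.Perm (Fin 4),
        ∑ σ : Equiv.Perm (Fin 8), ((Equiv.Perm.sign σ : ℤ) : ℂ) *
        (((Equiv.Perm.sign p.1 : ℤ) : ℂ) * a ((σ ∘ lft) ∘ p.1)) *
        (((Equiv.Perm.sign p.2 : ℤ) : ℂ) * a ((σ ∘ rgt) ∘ p.2)) := by
    rw [Finset.sum_comm]
    apply Finset.sum_congr rfl
    intro σ _
    rw [Fintype.sum_prod_type, mul_assoc, Finset.sum_mul_sum, Finset.mul_sum]
    apply Finset.sum_congr rfl
    intro x _
    rw [Finset.mul_sum]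
    apply Finset.sum_congr rfl
    intro y _
    ring
  rw [h2, Finset.sum_congr rfl (fun p _ => h1 p), Finset.sum_const, Finset.card_univ,
    Fintype.card_prod, Fintype.card_perm, Fintype.card_fin, nsmul_eq_mul]
  have h3 : Nat.factorial 4 = 24 := rfl
  rw [h3]
  norm_num

/-- sums of invariant functions -/
theorem cb_dvd {Γ : Type*} [Group Γ] [Fintype Γ] (H : Subgroup Γ) (G : Γ → ℤ)
    (hG : ∀ σ, ∀ h ∈ H, G (σ * h) = G σ) : (Nat.card H : ℤ) ∣ ∑ σ, G σ := by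
  classical
  have hm : ∀ σ : Γ, ((QuotientGroup.mk σ : Γ ⧸ H).out)⁻¹ * σ ∈ H := by
    intro σ
    rw [← QuotientGroup.eq]
    exact QuotientGroup.out_eq' _
  have ho : ∀ (q : Γ ⧸ H) (h : H), (QuotientGroup.mk (q.out * (h : Γ)) : Γ ⧸ H) = q := by
    intro q h
    rw [QuotientGroup.mk_mul_of_mem _ h.2]
    exact QuotientGroup.out_eq' _
  let e : (Γ ⧸ H) × H ≃ Γ :=
    { toFun := fun p => p.1.out * (p.2 : Γ)
      invFun := fun σ => ((QuotientGroup.mk σ : Γ ⧸ H),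
        ⟨((QuotientGroup.mk σ : Γ ⧸ H).out)⁻¹ * σ, hm σ⟩)
      left_inv := by
        rintro ⟨q, h⟩
        apply Prod.ext
        · exact ho q h
        · apply Subtype.ext
          show ((QuotientGroup.mk (q.out * (h : Γ)) : Γ ⧸ H).out)⁻¹ * (q.out * (h : Γ)) = h
          rw [ho q h, inv_mul_cancel_left]
      right_inv := by
        intro σ
        show ((QuotientGroup.mk σ : Γ ⧸ H).out) * (((QuotientGroup.mk σ : Γ ⧸ H).out)⁻¹ * σ) = σ
        rw [mul_inv_cancel_left] }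
  have : Fintype (Γ ⧸ H) := Fintype.ofFinite _
  have : Fintype H := Fintype.ofFinite _
  have h1 : ∑ σ, G σ = ∑ p : (Γ ⧸ H) × H, G (e p) := (Equiv.sum_comp e G).symm
  rw [h1, Fintype.sum_prod_type]
  apply Finset.dvd_sum
  intro q _
  have h2 : ∀ h : H, G (e (q, h)) = G q.out := fun h => hG _ _ h.2
  rw [Finset.sum_congr rfl (fun h _ => h2 h), Finset.sum_const, Finset.card_univ, nsmul_eq_mul,
    Nat.card_eq_fintype_card]
  exact Dvd.intro _ rfl

/-- the swap of the two halves -/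
def cb_swap : Equiv.Perm (Fin 8) := cb_e.permCongr (Equiv.sumComm (Fin 4) (Fin 4))

theorem cb_swap_lft (i : Fin 4) : cb_swap (lft i) = rgt i := by
  show cb_e (Equiv.sumComm (Fin 4) (Fin 4) (cb_e.symm (lft i))) = rgt i
  rw [cb_symm_lft, Equiv.sumComm_apply, Sum.swap_inl, cb_e_inr]

theorem cb_swap_rgt (i : Fin 4) : cb_swap (rgt i) = lft i := by
  show cb_e (Equiv.sumComm (Fin 4) (Fin 4) (cb_e.symm (rgt i))) = lft i
  rw [cb_symm_rgt, Equiv.sumComm_apply, Sum.swap_inr, cb_e_inl]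

theorem cb_swap_sign : Equiv.Perm.sign cb_swap = 1 := by
  unfold cb_swap
  rw [Equiv.Perm.sign_permCongr]
  decide

/-- divisibility -/
theorem dvd_sum (c : (Fin 4 → Fin 8) → ℤ)
    (hc : ∀ (f : Fin 4 → Fin 8) (π : Equiv.Perm (Fin 4)), c (f ∘ π) = Equiv.Perm.sign π * c f) :
    (1152 : ℤ) ∣ ∑ σ : Equiv.Perm (Fin 8), (Equiv.Perm.sign σ : ℤ) * c (σ ∘ lft) * c (σ ∘ rgt) := by
  classical
  set F : Equiv.Perm (Fin 8) → ℤ := fun σ =>
    (Equiv.Perm.sign σ : ℤ) * c (σ ∘ lft) * c (σ ∘ rgt) with hF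
  have hsq : ∀ π : Equiv.Perm (Fin 4), ((Equiv.Perm.sign π : ℤ)) * (Equiv.Perm.sign π : ℤ) = 1 := by
    intro π
    rcases Int.units_eq_one_or (Equiv.Perm.sign π) with h | h <;> rw [h] <;> norm_num
  have hF1 : ∀ (σ : Equiv.Perm (Fin 8)) (p : Equiv.Perm (Fin 4) × Equiv.Perm (Fin 4)),
      F (σ * cb_hom p) = F σ := by
    intro σ p
    simp only [hF]
    rw [cb_mul_lft, cb_mul_rgt, hc, hc, Equiv.Perm.sign_mul, cb_sign]
    push_cast
    have h1 := hsq p.1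
    have h2 := hsq p.2
    calc (Equiv.Perm.sign σ : ℤ) * ((Equiv.Perm.sign p.1 : ℤ) * (Equiv.Perm.sign p.2 : ℤ)) *
          ((Equiv.Perm.sign p.1 : ℤ) * c (⇑σ ∘ lft)) *
          ((Equiv.Perm.sign p.2 : ℤ) * c (⇑σ ∘ rgt))
        = ((Equiv.Perm.sign p.1 : ℤ) * (Equiv.Perm.sign p.1 : ℤ)) *
          ((Equiv.Perm.sign p.2 : ℤ) * (Equiv.Perm.sign p.2 : ℤ)) *
          ((Equiv.Perm.sign σ : ℤ) * c (⇑σ ∘ lft) * c (⇑σ ∘ rgt)) := by ring
      _ = _ := by rw [h1, h2, one_mul, one_mul]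
  have hF2 : ∀ σ : Equiv.Perm (Fin 8), F (σ * cb_swap) = F σ := by
    intro σ
    have e1 : (⇑(σ * cb_swap)) ∘ lft = ⇑σ ∘ rgt := by
      funext i
      simp only [Function.comp_apply, Equiv.Perm.mul_apply, cb_swap_lft]
    have e2 : (⇑(σ * cb_swap)) ∘ rgt = ⇑σ ∘ lft := by
      funext i
      simp only [Function.comp_apply, Equiv.Perm.mul_apply, cb_swap_rgt]
    simp only [hF]
    rw [e1, e2, Equiv.Perm.sign_mul, cb_swap_sign, mul_one]
    ring
  -- the half of the permutations which send a left index to zero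
  let L : Equiv.Perm (Fin 8) → Prop := fun σ => ∃ i : Fin 4, σ (lft i) = 0
  have hL : ∀ σ : Equiv.Perm (Fin 8), L (σ * cb_swap) ↔ ¬ L σ := by
    intro σ
    constructor
    · rintro ⟨i, hi⟩ ⟨j, hj⟩
      rw [Equiv.Perm.mul_apply, cb_swap_lft] at hi
      have h := σ.injective (hi.trans hj.symm)
      have h' := congrArg Fin.val h
      simp only [rgt, lft] at h'
      omega
    · intro h
      obtain ⟨x, hx⟩ := σ.surjective 0
      rcases lt_or_ge x.val 4 with hx4 | hx4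
      · exfalso
        apply h
        refine ⟨⟨x.val, hx4⟩, ?_⟩
        have : lft ⟨x.val, hx4⟩ = x := Fin.ext rfl
        rw [this, hx]
      · have hx8 : x.val - 4 < 4 := by omega
        refine ⟨⟨x.val - 4, hx8⟩, ?_⟩
        rw [Equiv.Perm.mul_apply, cb_swap_lft]
        have : rgt ⟨x.val - 4, hx8⟩ = x := by
          apply Fin.ext
          simp only [rgt]
          omega
        rw [this, hx]
  have hL1 : ∀ (σ : Equiv.Perm (Fin 8)) (p : Equiv.Perm (Fin 4) × Equiv.Perm (Fin 4)),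
      L (σ * cb_hom p) ↔ L σ := by
    intro σ p
    constructor
    · rintro ⟨i, hi⟩
      rw [Equiv.Perm.mul_apply, cb_hom_lft] at hi
      exact ⟨_, hi⟩
    · rintro ⟨i, hi⟩
      refine ⟨p.1.symm i, ?_⟩
      rw [Equiv.Perm.mul_apply, cb_hom_lft, Equiv.apply_symm_apply]
      exact hi
  have h576 : (576 : ℤ) ∣ ∑ σ : Equiv.Perm (Fin 8), if L σ then F σ else 0 := by
    have h := cb_dvd cb_hom.range (fun σ => if L σ then F σ else 0) (by
      rintro σ h ⟨p, rfl⟩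
      simp only [hL1, hF1])
    have hcard : Nat.card cb_hom.range = 576 := by
      rw [Nat.card_congr (MonoidHom.ofInjective cb_hom_inj).toEquiv.symm, Nat.card_prod,
        Nat.card_perm, Nat.card_eq_fintype_card, Fintype.card_fin]
      rfl
    rw [hcard] at h
    exact_mod_cast h
  have hsplit : ∑ σ : Equiv.Perm (Fin 8), F σ =
      2 * ∑ σ : Equiv.Perm (Fin 8), if L σ then F σ else 0 := by
    have e1 : ∑ σ : Equiv.Perm (Fin 8), F σ = (∑ σ : Equiv.Perm (Fin 8), if L σ then F σ else 0) +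
        ∑ σ : Equiv.Perm (Fin 8), if L σ then 0 else F σ := by
      rw [← Finset.sum_add_distrib]
      apply Finset.sum_congr rfl
      intro σ _
      split_ifs <;> ring
    have e2 : (∑ σ : Equiv.Perm (Fin 8), if L σ then 0 else F σ) =
        ∑ σ : Equiv.Perm (Fin 8), if L σ then F σ else 0 := by
      rw [← Equiv.sum_comp (Equiv.mulRight cb_swap)
        (fun σ : Equiv.Perm (Fin 8) => if L σ then 0 else F σ)]
      apply Finset.sum_congr rfl
      intro σ _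
      rw [Equiv.coe_mulRight]
      by_cases h : L σ
      · have h' : ¬ L (σ * cb_swap) := fun h2 => (hL σ).1 h2 h
        rw [if_neg h', if_pos h, hF2]
      · have h' : L (σ * cb_swap) := (hL σ).2 h
        rw [if_pos h', if_neg h]
    rw [e1, e2]
    ring
  show (1152 : ℤ) ∣ ∑ σ : Equiv.Perm (Fin 8), F σ
  rw [hsplit]
  have : (1152 : ℤ) = 2 * 576 := by norm_num
  rw [this]
  exact mul_dvd_mul_left 2 h576

end Pool.Agent.PD4
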