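import Pool.Agent.PD4.Rk3.Defs

/-!
# Project PD4, rank 3 block: the trace of matrix-valued forms, the closed forms `p_k`
-/

open MeasureTheory
open scoped ContDiff TensorProduct

namespace Pool.Agent.PD4

variable {ι : Type*} [Fintype ι] [DecidableEq ι] {n : ℕ}

theorem TT_Tr (w : Om (Matrix ι ι (Sm n)) n) : (matCalc ι n).TT w = (smCalc n).TT (Tr w) := by
  induction w using Om.ind with
  | zero => simp
  | add a b ha hb => rw [map_add, map_add, map_add, ha, hb]
  | tmul a x => rfl

lemma trc_D (i : Fin n) (M : Matrix ι ι (Sm n)) :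
    ((matCalc ι n).D i M).trace = (smCalc n).D i M.trace := by
  change ((pD i).mapMatrix M).trace = pD i M.trace
  simp only [Matrix.trace, Matrix.diag_apply, LinearMap.mapMatrix_apply, Matrix.map_apply,
    map_sum]

theorem Tr_dd (w : Om (Matrix ι ι (Sm n)) n) : Tr ((matCalc ι n).dd w) = (smCalc n).dd (Tr w) := by
  induction w using Om.ind with
  | zero => simp
  | add a b ha hb => rw [map_add, map_add, map_add, map_add, ha, hb]
  | tmul a x =>
    rw [Calc.dd_tmul, map_sum, Tr_tmul, Calc.dd_tmul]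
    refine Finset.sum_congr rfl fun i _ => ?_
    rw [Tr_tmul, trc_D]

theorem grO_Tr (w : Om (Matrix ι ι (Sm n)) n) : grO (Tr w) = Tr (grO w) := by
  induction w using Om.ind with
  | zero => simp
  | add a b ha hb => rw [map_add, map_add, map_add, map_add, ha, hb]
  | tmul a x => rw [Tr_tmul, grO_tmul, grO_tmul, Tr_tmul]

lemma trc_even_aux (v w : Om (Matrix ι ι (Sm n)) n) :
    Tr ((v + grO v) * w) = Tr (w * (v + grO v)) := by
  induction v using Om.ind with
  | zero => simp
  | add a b ha hb =>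
    have e : a + b + grO (a + b) = (a + grO a) + (b + grO b) := by rw [map_add]; abel
    rw [e, add_mul, mul_add, map_add, map_add, ha, hb]
  | tmul a x =>
    induction w using Om.ind with
    | zero => simp
    | add c d hc hd => rw [mul_add, map_add, hc, hd, add_mul, map_add]
    | tmul b y =>
      rw [grO_tmul, ← TensorProduct.tmul_add, Algebra.TensorProduct.tmul_mul_tmul,
        Algebra.TensorProduct.tmul_mul_tmul, Tr_tmul, Tr_tmul, Matrix.trace_mul_comm a b]
      rw [even_mul (x + gr n x) y (by rw [map_add, gr_gr]; abel)]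

theorem Tr_comm (v w : Om (Matrix ι ι (Sm n)) n) (hv : grO v = v) : Tr (v * w) = Tr (w * v) := by
  have h := trc_even_aux v w
  have e : v + grO v = (2 : ℂ) • v := by rw [hv]; module
  rw [e, smul_mul_assoc, mul_smul_comm, map_smul, map_smul] at h
  have h2 := congrArg (fun z => ((2 : ℂ)⁻¹) • z) h
  simpa [smul_smul] using h2

/-- the even Chern integrand is the integral of `p_k` -/
theorem evenT_pk (k : ℕ) (P : Matrix ι ι (Sm (2 * k))) :
    (matCalc ι (2 * k)).evenT P = (smCalc (2 * k)).TT (pk P k) := by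
  unfold Calc.evenT pk
  rw [TT_Tr]
  rfl

lemma trc_grO_eO (P : Matrix ι ι (Sm n)) : grO (eO P) = eO P := by
  rw [eO, grO_tmul, map_one]

lemma trc_grO_dO (P : Matrix ι ι (Sm n)) : grO (dO P) = - dO P := by
  rw [dO, Calc.grO_dd, trc_grO_eO]

theorem grO_pk (P : Matrix ι ι (Sm n)) (k : ℕ) : grO (pk P k) = pk P k := by
  unfold pk
  rw [grO_Tr, map_mul, map_pow, trc_grO_eO, trc_grO_dO, (even_two_mul k).neg_pow]

lemma trc_dd_pow (P : Matrix ι ι (Sm n)) (m : ℕ) : (matCalc ι n).dd (dO P ^ m) = 0 := by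
  induction m with
  | zero =>
    have h := (matCalc ι n).dd_mul 1 1
    rw [map_one (grO : Om (Matrix ι ι (Sm n)) n →ₐ[ℂ] Om (Matrix ι ι (Sm n)) n), one_mul,
      mul_one, one_mul, left_eq_add] at h
    rw [pow_zero, h]
  | succ m ih =>
    have h : (matCalc ι n).dd (dO P) = 0 := by rw [dO, Calc.dd_dd]
    rw [pow_succ, Calc.dd_mul, ih, h, zero_mul, mul_zero, add_zero]

lemma trc_eO_sq (P : Matrix ι ι (Sm n)) (hP : P * P = P) : eO P * eO P = eO P := by
  rw [eO, Algebra.TensorProduct.tmul_mul_tmul, hP, one_mul]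

lemma trc_dO_eq (P : Matrix ι ι (Sm n)) (hP : P * P = P) :
    dO P = dO P * eO P + eO P * dO P := by
  have h := (matCalc ι n).dd_mul (eO P) (eO P)
  rw [trc_eO_sq P hP, trc_grO_eO] at h
  exact h

/-- `e f^(2k+1) = f^(2k+1) (1 - e)` -/
lemma trc_eO_pow (P : Matrix ι ι (Sm n)) (hP : P * P = P) (k : ℕ) :
    eO P * dO P ^ (2 * k + 1) = dO P ^ (2 * k + 1) * (1 - eO P) := by
  have h1 : eO P * dO P = dO P * (1 - eO P) := by
    rw [mul_sub, mul_one, eq_sub_iff_add_eq, add_comm]
    exact (trc_dO_eq P hP).symm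
  have h2 : (1 - eO P) * dO P = dO P * eO P := by
    rw [sub_mul, one_mul, h1, mul_sub, mul_one, sub_sub_cancel]
  induction k with
  | zero => simpa using h1
  | succ k ih =>
    have e : 2 * (k + 1) + 1 = (2 * k + 1) + 1 + 1 := by ring
    rw [e, pow_succ, pow_succ, ← mul_assoc, ← mul_assoc, ih, mul_assoc (dO P ^ (2 * k + 1)), h2,
      mul_assoc, mul_assoc (dO P) (eO P) (dO P), h1, ← mul_assoc, ← mul_assoc]

/-- `p_k` is closed -/
theorem dd_pk (P : Matrix ι ι (Sm n)) (hP : P * P = P) (k : ℕ) : (smCalc n).dd (pk P k) = 0 := by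
  unfold pk
  rw [← Tr_dd, Calc.dd_mul, trc_dd_pow, mul_zero, add_zero]
  change Tr (dO P * dO P ^ (2 * k)) = 0
  rw [← pow_succ']
  set F := dO P ^ (2 * k + 1) with hF
  have h1 : eO P * F = F * (1 - eO P) := trc_eO_pow P hP k
  have h2 : (1 - eO P) * F = F * eO P := by
    rw [sub_mul, one_mul, h1, mul_sub, mul_one, sub_sub_cancel]
  have h3 : (1 - eO P) * (1 - eO P) = 1 - eO P := by
    rw [mul_sub, mul_one, sub_mul, one_mul, trc_eO_sq P hP, sub_self, sub_zero]
  have h4 : (1 - eO P) * eO P = 0 := by rw [sub_mul, one_mul, trc_eO_sq P hP, sub_self]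
  have h5 : eO P * (1 - eO P) = 0 := by rw [mul_sub, mul_one, trc_eO_sq P hP, sub_self]
  have h6 : grO (1 - eO P) = 1 - eO P := by rw [map_sub, map_one, trc_grO_eO]
  have e1 : Tr (eO P * F) = 0 := by
    calc Tr (eO P * F) = Tr (eO P * (eO P * F)) := by rw [← mul_assoc, trc_eO_sq P hP]
      _ = Tr (eO P * F * eO P) := Tr_comm _ _ (trc_grO_eO P)
      _ = 0 := by rw [h1, mul_assoc, h4, mul_zero, map_zero]
  have e2 : Tr ((1 - eO P) * F) = 0 := by
    calc Tr ((1 - eO P) * F) = Tr ((1 - eO P) * ((1 - eO P) * F)) := by rw [← mul_assoc, h3]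
      _ = Tr ((1 - eO P) * F * (1 - eO P)) := Tr_comm _ _ h6
      _ = 0 := by rw [h2, mul_assoc, h5, mul_zero, map_zero]
  have e3 : F = eO P * F + (1 - eO P) * F := by rw [← add_mul, add_sub_cancel, one_mul]
  rw [e3, map_add, e1, e2, add_zero]

/-- products of even closed forms are closed -/
theorem dd_mul_closed (α β : Om (Sm n) n) (hα : (smCalc n).dd α = 0)
    (hβ : (smCalc n).dd β = 0) : (smCalc n).dd (α * β) = 0 := by
  rw [Calc.dd_mul, hα, hβ, zero_mul, mul_zero, add_zero]

lemma trc_comm_aux (v w : Om (Sm n) n) : (v + grO v) * w = w * (v + grO v) := by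
  induction v using Om.ind with
  | zero => simp
  | add a b ha hb =>
    have e : a + b + grO (a + b) = (a + grO a) + (b + grO b) := by rw [map_add]; abel
    rw [e, add_mul, mul_add, ha, hb]
  | tmul a x =>
    induction w using Om.ind with
    | zero => simp
    | add c d hc hd => rw [mul_add, hc, hd, add_mul]
    | tmul b y =>
      rw [grO_tmul, ← TensorProduct.tmul_add, Algebra.TensorProduct.tmul_mul_tmul,
        Algebra.TensorProduct.tmul_mul_tmul, mul_comm a b]
      rw [even_mul (x + gr n x) y (by rw [map_add, gr_gr]; abel)]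

/-- even forms are central -/
theorem even_comm (α β : Om (Sm n) n) (hα : grO α = α) : α * β = β * α := by
  have h := trc_comm_aux α β
  have e : α + grO α = (2 : ℂ) • α := by rw [hα]; module
  rw [e, smul_mul_assoc, mul_smul_comm] at h
  have h2 := congrArg (fun z => ((2 : ℂ)⁻¹) • z) h
  simpa [smul_smul] using h2

/-- expansion of `p_k` -/
theorem pk_eq (P : Matrix ι ι (Sm n)) (k : ℕ) : pk P k =
    ∑ f : Fin (2 * k) → Fin n,
      (P * (List.ofFn fun j => (matCalc ι n).D (f j) P).prod).trace ⊗ₜ[ℂ]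
        ((List.ofFn fun j => (dx (f j) : Ext n)).prod) := by
  have h : dO P = ∑ i, (matCalc ι n).D i P ⊗ₜ[ℂ] (dx i : Ext n) := by
    rw [dO, eO, Calc.dd_tmul]
    simp only [mul_one]
  unfold pk
  rw [h, oneForm_pow, Finset.mul_sum, map_sum]
  refine Finset.sum_congr rfl fun f _ => ?_
  rw [eO, Algebra.TensorProduct.tmul_mul_tmul, one_mul, Tr_tmul]

end Pool.Agent.PD4
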