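import Pool.Agent.PD4.Rk3.Tau
import Pool.Agent.PD4.Rk3.Trace
import Pool.Agent.PD4.Rk3.Comb

/-!
# Project PD4, rank 3 block: Chern numbers of the slices and the mean value of `p_2`
-/

open MeasureTheory
open scoped ContDiff TensorProduct

namespace Pool.Agent.PD4

variable {ι : Type*} [Fintype ι] [DecidableEq ι] {n : ℕ}

/-- the fourth moments -/
noncomputable def a4 (P : Matrix ι ι (Sm n)) (f : Fin 4 → Fin n) : ℂ :=
  mean (P * (List.ofFn fun j => (matCalc ι n).D (f j) P).prod).trace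

/-- the antisymmetrised fourth moments -/
noncomputable def A4 (P : Matrix ι ι (Sm n)) (f : Fin 4 → Fin n) : ℂ :=
  ∑ π : Equiv.Perm (Fin 4), ((Equiv.Perm.sign π : ℤ) : ℂ) * a4 P (f ∘ π)

lemma sl_sign_sq {m : ℕ} (π : Equiv.Perm (Fin m)) :
    ((Equiv.Perm.sign π : ℤ) : ℂ) * ((Equiv.Perm.sign π : ℤ) : ℂ) = 1 := by
  rw [← Int.cast_mul, ← Units.val_mul, Int.units_mul_self]
  simp

lemma A4_comp (P : Matrix ι ι (Sm n)) (f : Fin 4 → Fin n) (π : Equiv.Perm (Fin 4)) :
    A4 P (f ∘ π) = ((Equiv.Perm.sign π : ℤ) : ℂ) * A4 P f := by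
  have h := Equiv.sum_comp (Equiv.mulLeft π)
    (fun ρ : Equiv.Perm (Fin 4) => ((Equiv.Perm.sign ρ : ℤ) : ℂ) * a4 P (f ∘ ρ))
  unfold A4
  rw [← h, Finset.mul_sum]
  refine Finset.sum_congr rfl fun ρ _ => ?_
  simp only [Equiv.coe_mulLeft]
  have e1 : (f ∘ π) ∘ ρ = f ∘ (π * ρ : Equiv.Perm (Fin 4)) := rfl
  rw [e1, Equiv.Perm.sign_mul, Units.val_mul, Int.cast_mul, ← mul_assoc, ← mul_assoc,
    sl_sign_sq, one_mul]

lemma sl_tau_zero (f : Sm n) : tau 0 f = f := by
  apply Subtype.ext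
  funext x
  rw [tau_apply, add_zero]

/-- the Chern integrand of a slice does not depend on the base point -/
theorem evenT_slice_const (P : Matrix ι ι (Sm n)) (hP : P * P = P) (s : Fin 4 ↪ Fin n)
    (c : Fin n → ℝ) :
    (matCalc ι 4).evenT (P.map fun f => Sm.restr s (tau c f)) =
      (matCalc ι 4).evenT (P.map fun f => Sm.restr s f) := by
  have he : (P.map (tSliceS s c)) * (P.map (tSliceS s c)) = P.map (tSliceS s c) := by
    have h := (Matrix.map_mul (L := P) (M := P)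
      (f := ((tSliceS s c : Sm n →⋆ₐ[ℂ] SmS 4) : Sm n →+* SmS 4))).symm
    rw [hP] at h
    exact h
  have h := evenT_path (ι := ι) (n := 4) (by decide) (P.map (tSliceS s c)) he 1 0
  have e1 : (P.map (tSliceS s c)).map (evS 1) = P.map fun f => Sm.restr s (tau c f) := by
    ext1 i j
    change evS 1 (tSliceS s c (P i j)) = Sm.restr s (tau c (P i j))
    rw [evS_tSliceS, one_smul]
  have e0 : (P.map (tSliceS s c)).map (evS 0) = P.map fun f => Sm.restr s f := by
    ext1 i j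
    change evS 0 (tSliceS s c (P i j)) = Sm.restr s (P i j)
    rw [evS_tSliceS, zero_smul, sl_tau_zero]
  rw [e1, e0] at h
  exact h

/-- slices of matrices -/
noncomputable def sl_hom (s : Fin 4 ↪ Fin n) (c : Fin n → ℝ) : Sm n →+* Sm 4 :=
  ((Sm.restr s : Sm n →⋆ₐ[ℂ] Sm 4) : Sm n →+* Sm 4).comp ((tau c : Sm n →⋆ₐ[ℂ] Sm n) : Sm n →+* Sm n)

lemma sl_hom_apply (s : Fin 4 ↪ Fin n) (c : Fin n → ℝ) (f : Sm n) :
    sl_hom s c f = Sm.restr s (tau c f) := rfl

lemma sl_D (P : Matrix ι ι (Sm n)) (s : Fin 4 ↪ Fin n) (c : Fin n → ℝ) (j : Fin 4) :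
    (matCalc ι 4).D j (P.map fun f => Sm.restr s (tau c f)) =
      (sl_hom s c).mapMatrix ((matCalc ι n).D (s j) P) := by
  ext1 a b
  change pD j (Sm.restr s (tau c (P a b))) = Sm.restr s (tau c (pD (s j) (P a b)))
  rw [pD_restr, pD_tau]

/-- the moment function -/
noncomputable def sl_mom (P : Matrix ι ι (Sm n)) (f : Fin 4 → Fin n) : Sm n :=
  (P * (List.ofFn fun j => (matCalc ι n).D (f j) P).prod).trace

lemma sl_term (P : Matrix ι ι (Sm n)) (s : Fin 4 ↪ Fin n) (c : Fin n → ℝ)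
    (σ : Equiv.Perm (Fin 4)) :
    (matCalc ι 4).tr ((P.map fun f => Sm.restr s (tau c f)) *
      (List.ofFn fun j : Fin 4 => (matCalc ι 4).D (σ j)
        (P.map fun f => Sm.restr s (tau c f))).prod) =
      mean (Sm.restr s (tau c (sl_mom P (s ∘ σ)))) := by
  have h1 : (P.map fun f => Sm.restr s (tau c f)) = (sl_hom s c).mapMatrix P := rfl
  have h2 : (List.ofFn fun j : Fin 4 => (matCalc ι 4).D (σ j)
        (P.map fun f => Sm.restr s (tau c f))) =
      (List.ofFn fun j : Fin 4 => (matCalc ι n).D (s (σ j)) P).map (sl_hom s c).mapMatrix := by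
    rw [List.map_ofFn]
    congr 1
    funext j
    exact sl_D P s c (σ j)
  rw [h2, h1, ← map_list_prod, ← map_mul]
  change mean (Matrix.trace ((sl_hom s c).mapMatrix _)) = mean (sl_hom s c (sl_mom P (s ∘ σ)))
  congr 1
  rw [RingHom.mapMatrix_apply, sl_mom]
  exact (AddMonoidHom.map_trace ((sl_hom s c) : Sm n →+ Sm 4) _).symm

lemma sl_evenT (P : Matrix ι ι (Sm n)) (s : Fin 4 ↪ Fin n) (c : Fin n → ℝ) :
    (matCalc ι 4).evenT (P.map fun f => Sm.restr s (tau c f)) =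
      mean (Sm.restr s (tau c (∑ σ : Equiv.Perm (Fin 4),
        ((Equiv.Perm.sign σ : ℤ) : ℂ) • sl_mom P (s ∘ σ)))) := by
  rw [Calc.evenT_eq, map_sum, map_sum, map_sum]
  refine Finset.sum_congr rfl fun σ _ => ?_
  rw [sl_term, map_smul, map_smul, map_smul, smul_eq_mul]

/-- the Chern integrand of a slice -/
theorem evenT_slice (P : Matrix ι ι (Sm n)) (hP : P * P = P) (s : Fin 4 ↪ Fin n)
    (c : Fin n → ℝ) :
    (matCalc ι 4).evenT (P.map fun f => Sm.restr s (tau c f)) = A4 P s := by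
  have h1 := avg_slice s (∑ σ : Equiv.Perm (Fin 4),
        ((Equiv.Perm.sign σ : ℤ) : ℂ) • sl_mom P (s ∘ σ))
  have h2 : ∀ b : Fin n → ℝ, mean (Sm.restr s (tau b (∑ σ : Equiv.Perm (Fin 4),
        ((Equiv.Perm.sign σ : ℤ) : ℂ) • sl_mom P (s ∘ σ)))) =
      (matCalc ι 4).evenT (P.map fun f => Sm.restr s (tau c f)) := by
    intro b
    rw [← sl_evenT, evenT_slice_const P hP s b, evenT_slice_const P hP s c]
  simp only [h2] at h1
  rw [setIntegral_const] at h1
  have h3 : (volume : Measure (Fin n → ℝ)).real (Set.Icc (0 : Fin n → ℝ) 1) = 1 := by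
    rw [Measure.real, Real.volume_Icc_pi_toReal (by intro i; simp)]
    simp
  rw [h3, one_smul] at h1
  rw [h1, A4, map_sum]
  refine Finset.sum_congr rfl fun σ _ => ?_
  rw [map_smul, smul_eq_mul]
  rfl

/-- a function of eight arguments and its two halves -/
def sl_split (m : ℕ) : (Fin 8 → Fin m) ≃ (Fin 4 → Fin m) × (Fin 4 → Fin m) where
  toFun h := (h ∘ lft, h ∘ rgt)
  invFun p := fun i => if h : i.val < 4 then p.1 ⟨i.val, h⟩ else p.2 ⟨i.val - 4, by omega⟩
  left_inv h := by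
    funext i
    by_cases hi : i.val < 4
    · simp [hi, lft]
    · simp only [hi, dite_false, Function.comp_apply]
      congr 1
      apply Fin.ext
      simp only [rgt]
      omega
  right_inv p := by
    apply Prod.ext
    · funext i
      simp [lft]
    · funext i
      simp [rgt]

lemma sl_ofFn {M : Type*} [Monoid M] (u : Fin 8 → M) :
    (List.ofFn fun i => u (lft i)).prod * (List.ofFn fun i => u (rgt i)).prod =
      (List.ofFn u).prod := by
  have e : List.ofFn u = (List.ofFn fun i => u (lft i)) ++ (List.ofFn fun i => u (rgt i)) := by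
    apply List.ext_getElem
    · simp
    · intro i h1 h2
      rw [List.getElem_ofFn]
      by_cases hi : i < 4
      · rw [List.getElem_append_left (by simpa using hi), List.getElem_ofFn]
        rfl
      · rw [List.getElem_append_right (by simpa using hi), List.getElem_ofFn]
        congr 1
        apply Fin.ext
        simp only [rgt, List.length_ofFn]
        omega
  rw [e, List.prod_append]

/-- the monomials of degree 4 -/
noncomputable def sl_w4 (f : Fin 4 → Fin 8) : Ext 8 := (List.ofFn fun j => (dx (f j) : Ext 8)).prod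

/-- the monomials of degree 8 -/
noncomputable def sl_w8 (f : Fin 8 → Fin 8) : Ext 8 := (List.ofFn fun j => (dx (f j) : Ext 8)).prod

lemma sl_w_mul (h : Fin 8 → Fin 8) : sl_w4 (h ∘ lft) * sl_w4 (h ∘ rgt) = sl_w8 h :=
  sl_ofFn (fun j => (dx (h j) : Ext 8))

lemma sl_meanO (P : Matrix ι ι (Sm 8)) : meanO (pk P 2) =
    ∑ f : Fin 4 → Fin 8, a4 P f • sl_w4 f := by
  rw [pk_eq, map_sum]
  refine Finset.sum_congr rfl fun f _ => ?_
  rw [meanO_tmul]
  rfl

lemma sl_sum_split {M : Type*} [AddCommMonoid M] (F : (Fin 4 → Fin 8) → (Fin 4 → Fin 8) → M) :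
    ∑ f : Fin 4 → Fin 8, ∑ g : Fin 4 → Fin 8, F f g =
      ∑ h : Fin 8 → Fin 8, F (h ∘ lft) (h ∘ rgt) := by
  rw [← Fintype.sum_prod_type']
  exact (Equiv.sum_comp (sl_split 8) (fun x => F x.1 x.2)).symm

lemma sl_top_abs (b : (Fin 4 → Fin 8) → ℂ) (w : (Fin 4 → Fin 8) → Ext 8)
    (w' : (Fin 8 → Fin 8) → Ext 8) (hw : ∀ h : Fin 8 → Fin 8, w (h ∘ lft) * w (h ∘ rgt) = w' h) :
    topc 8 ((∑ f : Fin 4 → Fin 8, b f • w f) * (∑ f : Fin 4 → Fin 8, b f • w f)) =
      ∑ h : Fin 8 → Fin 8, topc 8 (w' h) * b (h ∘ lft) * b (h ∘ rgt) := by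
  rw [Finset.sum_mul_sum, sl_sum_split, map_sum]
  refine Finset.sum_congr rfl fun h _ => ?_
  rw [smul_mul_smul_comm, map_smul, hw, smul_eq_mul]
  ring

lemma sl_w8_perm (σ : Equiv.Perm (Fin 8)) : topc 8 (sl_w8 σ) = ((Equiv.Perm.sign σ : ℤ) : ℂ) := by
  rw [sl_w8, topc_perm]

lemma sl_w8_not (f : Fin 8 → Fin 8) (hf : ¬ Function.Injective f) : topc 8 (sl_w8 f) = 0 := by
  rw [sl_w8, topc_not_inj f hf]

lemma sl_top_perm (b c : (Fin 4 → Fin 8) → ℂ) :
    ∑ h : Fin 8 → Fin 8, topc 8 (sl_w8 h) * b (h ∘ lft) * c (h ∘ rgt) =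
      ∑ σ : Equiv.Perm (Fin 8), ((Equiv.Perm.sign σ : ℤ) : ℂ) * b (σ ∘ lft) *
        c (σ ∘ rgt) := by
  symm
  apply Fintype.sum_of_injective (fun σ : Equiv.Perm (Fin 8) => (σ : Fin 8 → Fin 8))
  · exact DFunLike.coe_injective
  · intro f hf
    rw [sl_w8_not, zero_mul, zero_mul]
    intro hinj
    exact hf ⟨Equiv.ofBijective f (Finite.injective_iff_bijective.mp hinj), rfl⟩
  · intro σ
    rw [sl_w8_perm]

/-- the top coefficient of the square of the mean value of `p_2` -/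
theorem topc_sq (P : Matrix ι ι (Sm 8)) :
    topc 8 (meanO (pk P 2) * meanO (pk P 2)) =
      ∑ σ : Equiv.Perm (Fin 8), ((Equiv.Perm.sign σ : ℤ) : ℂ) * a4 P (σ ∘ lft) *
        a4 P (σ ∘ rgt) := by
  rw [sl_meanO, sl_top_abs _ _ sl_w8 sl_w_mul, sl_top_perm]

end Pool.Agent.PD4
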