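import Pool.Agent.PD4.Ix.ChSym
import Pool.Agent.PD4.Rk3.Cartan
import Pool.Agent.PD4.Rk3.Newton
import Pool.Agent.PD4.Rk3.Real
import Pool.Agent.PD4.Rk3.Slice

/-!
# Project PD4, rank 3 block: the Chern number `ch_4` of a Real rank 3 projection on `T^8`
-/

open MeasureTheory
open scoped ContDiff TensorProduct

namespace Pool.Agent.PD4

variable {ι : Type*} [Fintype ι] [DecidableEq ι]

lemma fin_two_pi_I_ne : (2 * (Real.pi : ℂ) * Complex.I) ≠ 0 := by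
  simp [Real.pi_ne_zero]

/-- the antisymmetrised moments are integral multiples of `4 (2πi)²` -/
lemma fin_A4 (P : Matrix ι ι (Sm 8)) (hP : P * P = P)
    (h2 : ∀ s : Fin 4 ↪ Fin 8, ∃ (c : Fin 8 → ℝ) (z : ℤ),
      (matCalc ι 4).evenT (P.map fun f => Sm.restr s (tau c f)) =
        4 * (2 * (Real.pi : ℂ) * Complex.I) ^ 2 * z) (f : Fin 4 → Fin 8) :
    ∃ z : ℤ, A4 P f = 4 * (2 * (Real.pi : ℂ) * Complex.I) ^ 2 * z := by
  by_cases hf : Function.Injective f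
  · obtain ⟨c, z, hz⟩ := h2 ⟨f, hf⟩
    exact ⟨z, by rw [← hz, evenT_slice P hP ⟨f, hf⟩ c]; rfl⟩
  · unfold Function.Injective at hf
    push Not at hf
    obtain ⟨i, j, hij, hne⟩ := hf
    refine ⟨0, ?_⟩
    have h1 : f ∘ (Equiv.swap i j) = f := by
      funext k
      by_cases hk : k = i
      · subst hk
        simp [hij]
      · by_cases hk' : k = j
        · subst hk'
          simp [hij]
        · simp [Equiv.swap_apply_of_ne_of_ne hk hk']
    have h3 := A4_comp P f (Equiv.swap i j)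
    rw [h1, Equiv.Perm.sign_swap hne] at h3
    have h4 : A4 P f = - A4 P f := by simpa using h3
    have h5 : A4 P f = 0 := by
      have : (2 : ℂ) * A4 P f = 0 := by linear_combination h4
      simpa using this
    simp [h5]

lemma fin_rest {n : ℕ} (P : Matrix ι ι (Sm n)) (hP : P * P = P) :
    (smCalc n).dd (pk P 1 ^ 3 - 6 * pk P 1 * pk P 2 + 8 * pk P 3) = 0 := by
  have hd1 := dd_pk P hP 1
  have hd2 := dd_pk P hP 2
  have hd3 := dd_pk P hP 3
  have e1 : (smCalc n).dd (pk P 1 ^ 3) = 0 := by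
    rw [pow_succ, pow_two]
    exact dd_mul_closed _ _ (dd_mul_closed _ _ hd1 hd1) hd1
  have e2 : (smCalc n).dd (pk P 1 * pk P 2) = 0 := dd_mul_closed _ _ hd1 hd2
  have e3 : pk P 1 ^ 3 - 6 * pk P 1 * pk P 2 + 8 * pk P 3 =
      pk P 1 ^ 3 - (6 : ℂ) • (pk P 1 * pk P 2) + (8 : ℂ) • pk P 3 := by
    rw [Algebra.smul_def, Algebra.smul_def, map_ofNat, map_ofNat, mul_assoc]
  rw [e3, map_add, map_sub, map_smul, map_smul, e1, e2, hd3]
  simp

/-- integrals of `p_4` and `p_2` -/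
lemma fin_int0 {n : ℕ} (P : Matrix ι ι (Sm n)) (hP : P * P = P) (hh : P.conjTranspose = P)
    (hr : MReal P) (ht : ∀ x, (mev x P).trace = 3) :
    6 * (smCalc n).TT (pk P 4) = 3 * topc n (meanO (pk P 2) * meanO (pk P 2)) := by
  have hd1 := dd_pk P hP 1
  have hd2 := dd_pk P hP 2
  have hm1 := mean_mul (pk P 1) (pk P 1 ^ 3 - 6 * pk P 1 * pk P 2 + 8 * pk P 3) hd1
    (fin_rest P hP)
  rw [meanO_pk_one P hh hr, zero_mul, map_zero] at hm1
  have hm2 := mean_mul (pk P 2) (pk P 2) hd2 hd2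
  have hN := newton_TT P hP ht
  rw [hm1, hm2, add_zero] at hN
  exact hN

lemma fin_int (P : Matrix ι ι (Sm 8)) (hP : P * P = P) (hh : P.conjTranspose = P)
    (hr : MReal P) (ht : ∀ x, (mev x P).trace = 3) :
    6 * (smCalc 8).TT (pk P 4) = 3 * ∑ σ : Equiv.Perm (Fin 8),
      ((Equiv.Perm.sign σ : ℤ) : ℂ) * a4 P (σ ∘ lft) * a4 P (σ ∘ rgt) := by
  rw [fin_int0 P hP hh hr ht, topc_sq]

/-- divisibility of the antisymmetrised sum -/
lemma fin_div (a : (Fin 4 → Fin 8) → ℂ) (c : (Fin 4 → Fin 8) → ℤ) (t : ℂ)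
    (hc : ∀ f, ∑ π : Equiv.Perm (Fin 4), ((Equiv.Perm.sign π : ℤ) : ℂ) * a (f ∘ π) = t * c f)
    (halt : ∀ (f : Fin 4 → Fin 8) (π : Equiv.Perm (Fin 4)), c (f ∘ π) = Equiv.Perm.sign π * c f) :
    ∃ M : ℤ, ∑ σ : Equiv.Perm (Fin 8),
      ((Equiv.Perm.sign σ : ℤ) : ℂ) * a (σ ∘ lft) * a (σ ∘ rgt) = t ^ 2 * (2 * M) := by
  obtain ⟨M, hM⟩ := dvd_sum c halt
  refine ⟨M, ?_⟩
  have hA := sum_antisymm a
  have hB : ∑ σ : Equiv.Perm (Fin 8), ((Equiv.Perm.sign σ : ℤ) : ℂ) *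
        (∑ π : Equiv.Perm (Fin 4), ((Equiv.Perm.sign π : ℤ) : ℂ) * a ((σ ∘ lft) ∘ π)) *
        (∑ π : Equiv.Perm (Fin 4), ((Equiv.Perm.sign π : ℤ) : ℂ) * a ((σ ∘ rgt) ∘ π)) =
      t ^ 2 * (1152 * M : ℤ) := by
    rw [← hM]
    push_cast
    rw [Finset.mul_sum]
    refine Finset.sum_congr rfl fun σ _ => ?_
    rw [hc, hc]
    ring
  rw [hB] at hA
  push_cast at hA
  linear_combination (1 / 576 : ℂ) * hA

/-- the integral of `p_4` is `16 (2πi)⁴` times an integer -/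
theorem fin_main (P : Matrix ι ι (Sm 8)) (hP : P * P = P) (hh : P.conjTranspose = P)
    (hr : MReal P) (ht : ∀ x, (mev x P).trace = 3)
    (h2 : ∀ s : Fin 4 ↪ Fin 8, ∃ (c : Fin 8 → ℝ) (z : ℤ),
      (matCalc ι 4).evenT (P.map fun f => Sm.restr s (tau c f)) =
        4 * (2 * (Real.pi : ℂ) * Complex.I) ^ 2 * z) :
    ∃ M : ℤ, (smCalc 8).TT (pk P 4) = 16 * (2 * (Real.pi : ℂ) * Complex.I) ^ 4 * M := by
  choose c hc using fin_A4 P hP h2
  have hne := fin_two_pi_I_ne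
  have h4 : (4 * (2 * (Real.pi : ℂ) * Complex.I) ^ 2) ≠ 0 :=
    mul_ne_zero (by norm_num) (pow_ne_zero _ hne)
  have halt : ∀ (f : Fin 4 → Fin 8) (π : Equiv.Perm (Fin 4)),
      c (f ∘ π) = Equiv.Perm.sign π * c f := by
    intro f π
    have h1 := A4_comp P f π
    rw [hc, hc] at h1
    have h3 : ((c (f ∘ π) : ℤ) : ℂ) = ((Equiv.Perm.sign π * c f : ℤ) : ℂ) := by
      apply mul_left_cancel₀ h4
      rw [h1]
      push_cast
      ring
    exact_mod_cast h3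
  obtain ⟨M, hM⟩ := fin_div (a4 P) c (4 * (2 * (Real.pi : ℂ) * Complex.I) ^ 2) hc halt
  refine ⟨M, ?_⟩
  have hN := fin_int P hP hh hr ht
  rw [hM] at hN
  have hfin : (6 : ℂ) * (smCalc 8).TT (pk P 4) =
      6 * (16 * (2 * (Real.pi : ℂ) * Complex.I) ^ 4 * M) := by
    rw [hN]
    ring
  exact mul_left_cancel₀ (by norm_num) hfin

/-- rank 3 theorem, slices written with `tau` -/
theorem rank3_tau (P : Matrix ι ι (Sm (2 * 4))) (hP : P * P = P) (hh : P.conjTranspose = P)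
    (hr : MReal P) (ht : ∀ x, (mev x P).trace = 3)
    (h2 : ∀ s : Fin (2 * 2) ↪ Fin (2 * 4), ∃ (c : Fin (2 * 4) → ℝ) (z : ℤ),
      evenCh 2 (P.map fun f => Sm.restr s (tau c f)) = 2 * z) :
    ∃ S : ℤ, 3 * evenCh 4 P = 2 * S := by
  have hne := fin_two_pi_I_ne
  obtain ⟨M, hM⟩ := fin_main (ι := ι) P hP hh hr ht (by
    intro s
    obtain ⟨c, z, hz⟩ := h2 s
    refine ⟨c, z, ?_⟩
    have h3 : (1 / (((2 : ℕ).factorial : ℂ) * (2 * Real.pi * Complex.I) ^ 2)) *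
        (matCalc ι 4).evenT (P.map fun f => Sm.restr s (tau c f)) = 2 * z := hz
    have h4 : (((2 : ℕ).factorial : ℂ)) = 2 := by norm_num [Nat.factorial]
    rw [h4] at h3
    have h5 : (2 * (2 * (Real.pi : ℂ) * Complex.I) ^ 2) ≠ 0 :=
      mul_ne_zero (by norm_num) (pow_ne_zero _ hne)
    rw [one_div_mul_eq_div, div_eq_iff h5] at h3
    rw [h3]
    ring)
  refine ⟨M, ?_⟩
  have h6 : evenCh 4 P = 1 / (((4 : ℕ).factorial : ℂ) * (2 * Real.pi * Complex.I) ^ 4) *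
      (smCalc 8).TT (pk (n := 8) P 4) := by
    rw [evenCh, evenT_pk]
  rw [h6, hM]
  have h4 : (((4 : ℕ).factorial : ℂ)) = 24 := by norm_num [Nat.factorial]
  rw [h4]
  field_simp
  ring

/-- **RANK 3 THEOREM**: for a Real rank 3 projection on `T⁸` with even second Chern numbers on
slices parallel to the coordinate 4-tori, `3 ch_4` is an even integer -/
theorem rank3 (P : Matrix ι ι (Sm 8)) (hP : P * P = P) (hh : P.conjTranspose = P)
    (hr : MReal P) (ht : ∀ x, (mev x P).trace = 3)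
    (h2 : ∀ s : Fin 4 ↪ Fin 8, ∃ (a : Fin 8 → ℝ) (z : ℤ),
      evenCh 2 (P.map (Sm.restrAt s a)) = 2 * z) :
    ∃ S : ℤ, 3 * evenCh 4 P = 2 * S := by
  refine rank3_tau P hP hh hr ht fun s => ?_
  obtain ⟨a, z, hz⟩ := h2 s
  refine ⟨a, z, ?_⟩
  rw [← hz]
  congr 1
  ext i j y
  change (P i j).1 (emb s y + a) = (P i j).1 (a + emb s y)
  rw [add_comm]

end Pool.Agent.PD4
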