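import Pool.Agent.PD4.Ix.Path

/-!
# Project PD4, rank 3 block: definitions

* `tau c` translation of smooth periodic functions, `smCalc` the calculus on `Sm n`;
* `tauO` translation of forms, `meanO` mean value of a form, `iota i` contraction with `∂_i`;
* `Tr` the trace `Om (Matrix ι ι (Sm n)) n → Om (Sm n) n`, `pk P k = Tr (e (de)^{2k})`.
-/

open MeasureTheory
open scoped ContDiff TensorProduct

namespace Pool.Agent.PD4

/-- translation `(tau c f)(x) = f(x + c)` -/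
noncomputable def tau {n : ℕ} (c : Fin n → ℝ) : Sm n →⋆ₐ[ℂ] Sm n where
  toFun f := ⟨fun x => f.1 (x + c), f.2.1.comp (contDiff_id.add contDiff_const), fun x i => by
    have h : x + Pi.single i 1 + c = (x + c) + Pi.single i 1 := by abel
    simp only [h]
    exact f.2.2 (x + c) i⟩
  map_one' := rfl
  map_mul' _ _ := rfl
  map_zero' := rfl
  map_add' _ _ := rfl
  commutes' _ := rfl
  map_star' _ := rfl

lemma tau_apply {n : ℕ} (c : Fin n → ℝ) (f : Sm n) (x : Fin n → ℝ) :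
    (tau c f).1 x = f.1 (x + c) := rfl

/-- the calculus on scalar smooth functions on the torus -/
noncomputable def smCalc (n : ℕ) : Calc (Sm n) n where
  D i := pD i
  leib i a b := pD_leib i a b
  comm i j a := pD_comm i j a
  tr := mean
  tr_comm a b := by rw [mul_comm]
  tr_D i a := mean_pD i a

/-- translation of forms -/
noncomputable def tauO {n : ℕ} (c : Fin n → ℝ) : Om (Sm n) n →ₐ[ℂ] Om (Sm n) n :=
  Algebra.TensorProduct.map (tau c).toAlgHom (AlgHom.id ℂ (Ext n))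

/-- the mean value of a form, an element of the Grassmann algebra -/
noncomputable def meanO {n : ℕ} : Om (Sm n) n →ₗ[ℂ] Ext n :=
  (TensorProduct.lid ℂ (Ext n)).toLinearMap ∘ₗ LinearMap.rTensor (Ext n) mean

lemma meanO_tmul {n : ℕ} (f : Sm n) (x : Ext n) : meanO (f ⊗ₜ[ℂ] x) = mean f • x := by
  simp [meanO]

/-- contraction with the `i`-th coordinate vector field -/
noncomputable def iota {n : ℕ} (i : Fin n) : Om (Sm n) n →ₗ[ℂ] Om (Sm n) n :=
  LinearMap.lTensor (Sm n)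
    (CliffordAlgebra.contractLeft (Q := (0 : QuadraticForm ℂ (Fin n → ℂ)))
      (LinearMap.proj i : (Fin n → ℂ) →ₗ[ℂ] ℂ))

/-- evaluation of a scalar form at a point -/
noncomputable def evO {n : ℕ} (x : Fin n → ℝ) : Om (Sm n) n →ₐ[ℂ] Ext n :=
  Algebra.TensorProduct.lift ((Algebra.ofId ℂ (Ext n)).comp (Sm.ev x : Sm n →⋆ₐ[ℂ] ℂ).toAlgHom)
    (AlgHom.id ℂ (Ext n)) (fun f y => by
      change algebraMap ℂ (Ext n) (f.1 x) * y = y * algebraMap ℂ (Ext n) (f.1 x)
      exact Algebra.commutes _ _)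

lemma evO_tmul {n : ℕ} (x : Fin n → ℝ) (f : Sm n) (w : Ext n) :
    evO x (f ⊗ₜ[ℂ] w) = f.1 x • w := by
  rw [evO, Algebra.TensorProduct.lift_tmul, Algebra.smul_def]
  rfl

section

variable {ι : Type*} [Fintype ι] [DecidableEq ι] {n : ℕ}

/-- the trace of a matrix-valued form -/
noncomputable def Tr : Om (Matrix ι ι (Sm n)) n →ₗ[ℂ] Om (Sm n) n :=
  LinearMap.rTensor (Ext n) (Matrix.traceLinearMap ι ℂ (Sm n))

lemma Tr_tmul (M : Matrix ι ι (Sm n)) (x : Ext n) : Tr (M ⊗ₜ[ℂ] x) = M.trace ⊗ₜ[ℂ] x := rfl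

/-- `e = P ⊗ 1` -/
noncomputable def eO (P : Matrix ι ι (Sm n)) : Om (Matrix ι ι (Sm n)) n := P ⊗ₜ[ℂ] (1 : Ext n)

/-- `de` -/
noncomputable def dO (P : Matrix ι ι (Sm n)) : Om (Matrix ι ι (Sm n)) n :=
  (matCalc ι n).dd (eO P)

/-- `p_k = Tr (e (de)^{2k})` -/
noncomputable def pk (P : Matrix ι ι (Sm n)) (k : ℕ) : Om (Sm n) n :=
  Tr (eO P * dO P ^ (2 * k))

end

end Pool.Agent.PD4
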