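import Pool.Agent.PD4.Rk3.Defs

/-!
# Project PD4, rank 3 block: translations, slices, averages
-/

open MeasureTheory
open scoped ContDiff TensorProduct

namespace Pool.Agent.PD4

lemma pD_tau {n : ℕ} (c : Fin n → ℝ) (i : Fin n) (f : Sm n) :
    pD i (tau c f) = tau c (pD i f) := by
  apply Subtype.ext
  funext x
  change fderiv ℝ (fun x => f.1 (x + c)) x (Pi.single i 1) =
    fderiv ℝ f.1 (x + c) (Pi.single i 1)
  rw [fderiv_comp_add_right]

/-- the path `t ↦ (x ↦ f (x + t c))` -/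
noncomputable def tauS {n : ℕ} (c : Fin n → ℝ) : Sm n →⋆ₐ[ℂ] SmS n where
  toFun f := ⟨fun p => f.1 (p.2 + p.1 • c),
    f.2.1.comp (contDiff_snd.add (contDiff_fst.smul contDiff_const)), fun s x i => by
      have h : x + Pi.single i 1 + s • c = (x + s • c) + Pi.single i 1 := by abel
      simp only [h]
      exact f.2.2 (x + s • c) i⟩
  map_one' := rfl
  map_mul' _ _ := rfl
  map_zero' := rfl
  map_add' _ _ := rfl
  commutes' _ := rfl
  map_star' _ := rfl

lemma evS_tauS {n : ℕ} (c : Fin n → ℝ) (t : ℝ) (f : Sm n) :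
    evS t (tauS c f) = tau (t • c) f := rfl

lemma pDs_tauS {n : ℕ} (c : Fin n → ℝ) (f : Sm n) :
    pDs (tauS c f) = ∑ i, (c i : ℂ) • tauS c (pD i f) := by
  apply Subtype.ext
  funext p
  have e1 : (∑ i, (c i : ℂ) • tauS c (pD i f) : SmS n).1 p =
      ∑ i, (c i : ℂ) * fderiv ℝ f.1 (p.2 + p.1 • c) (Pi.single i 1) := by
    have h : (∑ i, (c i : ℂ) • tauS c (pD i f) : SmS n).1 =
        ∑ i, ((c i : ℂ) • tauS c (pD i f) : SmS n).1 := by
      rw [AddSubmonoidClass.coe_finset_sum]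
    rw [h, Finset.sum_apply]
    rfl
  rw [e1]
  change fderiv ℝ (fun p : ℝ × (Fin n → ℝ) => f.1 (p.2 + p.1 • c)) p (1, 0) = _
  have h1 : HasFDerivAt (fun p : ℝ × (Fin n → ℝ) => p.2 + p.1 • c)
      (ContinuousLinearMap.snd ℝ ℝ (Fin n → ℝ) +
        (ContinuousLinearMap.fst ℝ ℝ (Fin n → ℝ)).smulRight c) p :=
    (ContinuousLinearMap.snd ℝ ℝ (Fin n → ℝ) +
        (ContinuousLinearMap.fst ℝ ℝ (Fin n → ℝ)).smulRight c).hasFDerivAt
  have h2 : HasFDerivAt f.1 (fderiv ℝ f.1 (p.2 + p.1 • c)) (p.2 + p.1 • c) :=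
    (Sm.diff_coe f _).hasFDerivAt
  have h3 := (h2.comp p h1).fderiv
  have h4 : fderiv ℝ (fun p : ℝ × (Fin n → ℝ) => f.1 (p.2 + p.1 • c)) p =
      (fderiv ℝ f.1 (p.2 + p.1 • c)).comp (ContinuousLinearMap.snd ℝ ℝ (Fin n → ℝ) +
        (ContinuousLinearMap.fst ℝ ℝ (Fin n → ℝ)).smulRight c) := h3
  rw [h4, ContinuousLinearMap.comp_apply]
  have h5 : (ContinuousLinearMap.snd ℝ ℝ (Fin n → ℝ) +
      (ContinuousLinearMap.fst ℝ ℝ (Fin n → ℝ)).smulRight c) ((1 : ℝ), (0 : Fin n → ℝ)) =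
      ∑ i, c i • (Pi.single i (1 : ℝ) : Fin n → ℝ) := by
    have h6 : ∑ i, c i • (Pi.single i (1 : ℝ) : Fin n → ℝ) = c := by
      funext j
      simp [Finset.sum_apply, Pi.single_apply]
    rw [h6]
    simp
  rw [h5, map_sum]
  refine Finset.sum_congr rfl fun i _ => ?_
  rw [map_smul]
  rfl

/-- the mean value is invariant under translations -/
theorem mean_tau {n : ℕ} (c : Fin n → ℝ) (f : Sm n) : mean (tau c f) = mean f := by
  have hd : ∀ t : ℝ, HasDerivAt (fun t => mean (evS t (tauS c f))) 0 t := by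
    intro t
    have h := hasDerivAt_mean (tauS c f) t
    have h0 : mean (evS t (pDs (tauS c f))) = 0 := by
      rw [pDs_tauS, map_sum, map_sum]
      refine Finset.sum_eq_zero fun i _ => ?_
      rw [map_smul, map_smul, evS_tauS, ← pD_tau, mean_pD, smul_zero]
    rw [h0] at h
    exact h
  have h1 := is_const_of_deriv_eq_zero (fun t => (hd t).differentiableAt)
    (fun t => (hd t).deriv) 1 0
  have e1 : evS 1 (tauS c f) = tau c f := by
    rw [evS_tauS, one_smul]
  have e0 : evS 0 (tauS c f) = f := by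
    rw [evS_tauS, zero_smul]
    apply Subtype.ext
    funext x
    rw [tau_apply, add_zero]
  rw [e1, e0] at h1
  exact h1

/-- the coordinate embedding -/
noncomputable def tau_emb {m n : ℕ} (s : Fin m ↪ Fin n) (y : Fin m → ℝ) : Fin n → ℝ :=
  fun i => ∑ j, if s j = i then y j else 0

lemma tau_contDiff_emb {m n : ℕ} (s : Fin m ↪ Fin n) : ContDiff ℝ ∞ (tau_emb s) := by
  refine contDiff_pi.2 fun i => ContDiff.sum fun j _ => ?_
  by_cases h : s j = i
  · simp only [h, if_true]
    exact contDiff_apply ℝ ℝ j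
  · simp only [h, if_false]
    exact contDiff_const

lemma tau_emb_add {m n : ℕ} (s : Fin m ↪ Fin n) (y z : Fin m → ℝ) :
    tau_emb s (y + z) = tau_emb s y + tau_emb s z := by
  funext i
  simp only [tau_emb, Pi.add_apply]
  rw [← Finset.sum_add_distrib]
  refine Finset.sum_congr rfl fun j _ => ?_
  split_ifs <;> simp

lemma tau_emb_single {m n : ℕ} (s : Fin m ↪ Fin n) (k : Fin m) (a : ℝ) :
    tau_emb s (Pi.single k a) = Pi.single (s k) a := by
  funext i
  simp only [tau_emb]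
  rw [Finset.sum_eq_single k]
  · by_cases h : s k = i
    · subst h; simp
    · rw [if_neg h, Pi.single_eq_of_ne (fun h' => h h'.symm)]
  · intro j _ hj
    rw [Pi.single_eq_of_ne hj]
    simp
  · intro h; exact absurd (Finset.mem_univ k) h

/-- the path of slices parallel to the coordinates `s` through the points `t c` -/
noncomputable def tSliceS {m n : ℕ} (s : Fin m ↪ Fin n) (c : Fin n → ℝ) : Sm n →⋆ₐ[ℂ] SmS m where
  toFun f := ⟨fun p => f.1 ((fun i => ∑ j, if s j = i then p.2 j else 0) + p.1 • c), by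
    constructor
    · exact f.2.1.comp (((tau_contDiff_emb s).comp contDiff_snd).add
        (contDiff_fst.smul contDiff_const))
    · intro t y k
      change f.1 (tau_emb s (y + Pi.single k 1) + t • c) = f.1 (tau_emb s y + t • c)
      have h : tau_emb s (y + Pi.single k 1) + t • c =
          (tau_emb s y + t • c) + Pi.single (s k) 1 := by
        rw [tau_emb_add, tau_emb_single]
        abel
      rw [h]
      exact f.2.2 _ _⟩
  map_one' := rfl
  map_mul' _ _ := rfl
  map_zero' := rfl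
  map_add' _ _ := rfl
  commutes' _ := rfl
  map_star' _ := rfl

lemma evS_tSliceS {m n : ℕ} (s : Fin m ↪ Fin n) (c : Fin n → ℝ) (t : ℝ) (f : Sm n) :
    evS t (tSliceS s c f) = Sm.restr s (tau (t • c) f) := rfl

/-- the coordinate embedding as a continuous linear map -/
noncomputable def tau_embL {m n : ℕ} (s : Fin m ↪ Fin n) : (Fin m → ℝ) →L[ℝ] (Fin n → ℝ) :=
  LinearMap.toContinuousLinearMap
    { toFun := tau_emb s
      map_add' := tau_emb_add s
      map_smul' := fun a y => by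
        funext i
        simp only [tau_emb, Pi.smul_apply, smul_eq_mul, RingHom.id_apply, Finset.mul_sum]
        refine Finset.sum_congr rfl fun j _ => ?_
        split_ifs <;> simp }

lemma tau_embL_apply {m n : ℕ} (s : Fin m ↪ Fin n) (y : Fin m → ℝ) :
    tau_embL s y = tau_emb s y := rfl

lemma pD_restr {m n : ℕ} (s : Fin m ↪ Fin n) (j : Fin m) (f : Sm n) :
    pD j (Sm.restr s f) = Sm.restr s (pD (s j) f) := by
  apply Subtype.ext
  funext y
  change fderiv ℝ (fun y => f.1 (tau_emb s y)) y (Pi.single j 1) =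
    fderiv ℝ f.1 (tau_emb s y) (Pi.single (s j) 1)
  have h1 : HasFDerivAt (fun y => tau_emb s y) (tau_embL s) y := (tau_embL s).hasFDerivAt
  have h2 : HasFDerivAt f.1 (fderiv ℝ f.1 (tau_emb s y)) (tau_emb s y) :=
    (Sm.diff_coe f _).hasFDerivAt
  have h3 := (h2.comp y h1).fderiv
  have h4 : fderiv ℝ (fun y => f.1 (tau_emb s y)) y =
      (fderiv ℝ f.1 (tau_emb s y)).comp (tau_embL s) := h3
  rw [h4, ContinuousLinearMap.comp_apply, tau_embL_apply, tau_emb_single]

/-- correlations are continuous in the translation -/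
lemma tau_continuous_corr {n : ℕ} (f g : Sm n) :
    Continuous fun p : (Fin n → ℝ) × (Fin n → ℝ) => f.1 (p.2 + p.1) * g.1 p.2 :=
  ((Sm.cont_coe f).comp (continuous_snd.add continuous_fst)).mul
    ((Sm.cont_coe g).comp continuous_snd)

lemma continuous_corr {n : ℕ} (f g : Sm n) : Continuous fun c => mean (tau c f * g) := by
  have h := continuous_parametric_integral_of_continuous (μ := volume)
    (f := fun (c x : Fin n → ℝ) => f.1 (x + c) * g.1 x) (tau_continuous_corr f g)
    (isCompact_Icc (a := (0 : Fin n → ℝ)) (b := 1))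
  exact h

/-- swap of two integrals over the cube -/
lemma tau_swap {m n : ℕ} (F : (Fin n → ℝ) → (Fin m → ℝ) → ℂ)
    (hF : Continuous fun p : (Fin n → ℝ) × (Fin m → ℝ) => F p.1 p.2) :
    ∫ c in Set.Icc (0 : Fin n → ℝ) 1, ∫ x in Set.Icc (0 : Fin m → ℝ) 1, F c x =
      ∫ x in Set.Icc (0 : Fin m → ℝ) 1, ∫ c in Set.Icc (0 : Fin n → ℝ) 1, F c x := by
  apply integral_integral_swap
  have h1 : IntegrableOn (fun p : (Fin n → ℝ) × (Fin m → ℝ) => F p.1 p.2)
      (Set.Icc (0 : Fin n → ℝ) 1 ×ˢ Set.Icc (0 : Fin m → ℝ) 1) (volume.prod volume) :=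
    hF.continuousOn.integrableOn_compact ((isCompact_Icc).prod isCompact_Icc)
  rw [IntegrableOn, ← Measure.prod_restrict] at h1
  exact h1

lemma tau_vol {n : ℕ} (a : ℂ) : ∫ _ in Set.Icc (0 : Fin n → ℝ) 1, a = a := by
  rw [setIntegral_const]
  have h : volume.real (Set.Icc (0 : Fin n → ℝ) 1) = 1 := by
    rw [Measure.real, Real.volume_Icc_pi]
    simp
  rw [h, one_smul]

/-- the average of the correlations -/
theorem avg_corr {n : ℕ} (f g : Sm n) :
    ∫ c in Set.Icc (0 : Fin n → ℝ) 1, mean (tau c f * g) = mean f * mean g := by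
  have h1 : ∫ c in Set.Icc (0 : Fin n → ℝ) 1, mean (tau c f * g) =
      ∫ c in Set.Icc (0 : Fin n → ℝ) 1, ∫ x in Set.Icc (0 : Fin n → ℝ) 1,
        f.1 (x + c) * g.1 x := rfl
  rw [h1, tau_swap _ (tau_continuous_corr f g)]
  have h2 : ∀ x : Fin n → ℝ, ∫ c in Set.Icc (0 : Fin n → ℝ) 1, f.1 (x + c) * g.1 x =
      mean f * g.1 x := by
    intro x
    have h3 : ∫ c in Set.Icc (0 : Fin n → ℝ) 1, f.1 (x + c) * g.1 x =
        (∫ c in Set.Icc (0 : Fin n → ℝ) 1, f.1 (x + c)) * g.1 x :=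
      integral_mul_const (g.1 x) fun c => f.1 (x + c)
    rw [h3, ← mean_tau x f]
    congr 1
    change _ = ∫ c in Set.Icc (0 : Fin n → ℝ) 1, f.1 (c + x)
    simp only [add_comm]
  simp only [h2]
  exact integral_const_mul (mean f) fun x => g.1 x

/-- the average of the mean values of the slices -/
theorem avg_slice {m n : ℕ} (s : Fin m ↪ Fin n) (f : Sm n) :
    ∫ c in Set.Icc (0 : Fin n → ℝ) 1, mean (Sm.restr s (tau c f)) = mean f := by
  have h1 : ∫ c in Set.Icc (0 : Fin n → ℝ) 1, mean (Sm.restr s (tau c f)) =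
      ∫ c in Set.Icc (0 : Fin n → ℝ) 1, ∫ y in Set.Icc (0 : Fin m → ℝ) 1,
        f.1 (tau_emb s y + c) := rfl
  have hc : Continuous fun p : (Fin n → ℝ) × (Fin m → ℝ) => f.1 (tau_emb s p.2 + p.1) :=
    (Sm.cont_coe f).comp (((tau_contDiff_emb s).continuous.comp continuous_snd).add
      continuous_fst)
  rw [h1, tau_swap _ hc]
  have h2 : ∀ y : Fin m → ℝ, ∫ c in Set.Icc (0 : Fin n → ℝ) 1, f.1 (tau_emb s y + c) =
      mean f := by
    intro y
    rw [← mean_tau (tau_emb s y) f]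
    change _ = ∫ c in Set.Icc (0 : Fin n → ℝ) 1, f.1 (c + tau_emb s y)
    simp only [add_comm]
  simp only [h2]
  exact tau_vol _

end Pool.Agent.PD4
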